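import Pool.Agent.H516R2.EQP4.Props
import Pool.Agent.H516R2.EQP2.CO

/-!
# The coding of NP questions with sparse codes (helper819)
-/

set_option autoImplicit false

namespace Pool.Agent.H516R2.EQP4

open Pool.Agent.NPC Pool.Agent.H622R2 Pool.Agent.H620R2.Gauge Finset H568R2 Pool.Agent.H676
  Pool.Agent.H516R2.EQP Pool.Agent.H516R2.EQP2 Pool.Agent.H516R2.EQP3 Pool.Agent.H591R3.PHG

theorem COs : St_COs := by
  intro K
  obtain ⟨g, hg⟩ := CO_enum
  choose b hb using fun e : ℕ => CO_bound (g e).1 (g e).2
  set R : ℕ → Polynomial ℕ := fun e => (b e + Polynomial.X + Polynomial.C (e + 1)) ^ (K + 2) with hR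
  set V : ℕ → Oracle → List Bool → Prop := fun e A x => NAcc (g e).1 (g e).2 A x with hV
  have hRe : ∀ e n, (R e).eval n = ((b e).eval n + n + (e + 1)) ^ (K + 2) := by
    intro e n
    rw [hR]
    simp only [Polynomial.eval_add, Polynomial.eval_pow, Polynomial.eval_X, Polynomial.eval_C]
  have hlen : ∀ e x, ((b e).eval x.length) ^ 2 < (code R e x).length ∧
      (b e).eval x.length < (code R e x).length := by
    intro e x
    have h1 := CC.lt_length_code R e x
    rw [hRe] at h1
    have h2 : ((b e).eval x.length) ^ 2 ≤ ((b e).eval x.length + x.length + (e + 1)) ^ (K + 2) :=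
      (Nat.pow_le_pow_left (by omega) 2).trans (Nat.pow_le_pow_right (by omega) (by omega))
    have h3 : (b e).eval x.length + x.length + (e + 1) ≤
      ((b e).eval x.length + x.length + (e + 1)) ^ (K + 2) := Nat.le_self_pow (by omega) _
    exact ⟨lt_of_le_of_lt h2 h1, by omega⟩
  have hloc : ∀ e A A' x, (∀ z : List Bool, z.length < (code R e x).length → A z = A' z) →
      (V e A x ↔ V e A' x) := by
    intro e A A' x h
    simp only [hV, NAcc]
    refine exists_congr fun w => and_congr_right fun hw => ?_
    rw [(hb e x w hw).2 A A' fun z hz => h z (lt_of_le_of_lt hz (hlen e x).2)]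
  refine ⟨CC.Phi R V, R, ?_, ?_, ?_, ?_, ?_⟩
  · intro e n
    rw [hRe]
    exact (Nat.pow_le_pow_left (by omega) K).trans (Nat.pow_le_pow_right (by omega) (by omega))
  · intro w
    by_cases h : ∃ e x, w = code R e x
    · obtain ⟨e, x, rfl⟩ := h
      refine Or.inr ⟨(g e).1, (g e).2, x, (b e).eval x.length, (hlen e x).1, (hlen e x).2,
        fun u hu => hb e x u hu, fun B => CC.Phi_code R V B hloc e x⟩
    · push Not at h
      exact Or.inl fun B => CC.Phi_not R V B w h
  · intro B w h
    exact CC.Phi_not R V B w h
  · intro B w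
    refine CC.Phi_not R V B _ fun e x h => ?_
    unfold code at h
    cases e with
    | zero =>
      rw [hRe] at h
      have h0 : ((b 0).eval x.length + x.length + (0 + 1)) ^ (K + 2) =
          (((b 0).eval x.length + x.length + (0 + 1)) ^ (K + 2) - 1) + 1 := by
        have : 1 ≤ ((b 0).eval x.length + x.length + (0 + 1)) ^ (K + 2) :=
          Nat.one_le_pow _ _ (by omega)
        omega
      rw [h0, List.replicate_succ] at h
      simp at h
    | succ e =>
      simp [List.replicate_succ] at h
  · intro M p
    obtain ⟨e, he⟩ := hg (M, p)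
    refine ⟨fun x => code R e x, polyTime_of_poly_list (CC.poly_code R e), fun B x => ?_⟩
    rw [CC.Phi_code R V B hloc e x]
    simp only [hV, he]

end Pool.Agent.H516R2.EQP4
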