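import Pool.Agent.H516R2.EQP4.Props
import Pool.Agent.H516R2.EQP3.FX

/-!
# `P = PH` and `PSPACE ⊆ EQP ≠ P` for a modification of every oracle (helper9)
-/

set_option autoImplicit false

namespace Pool.Agent.H516R2.EQP4

open Pool.Agent.NPC Pool.Agent.H620R2.Gauge Finset H568R2 Pool.Agent.H676 Pool.Agent.H516R2.EQP
  Pool.Agent.H516R2.EQP2 Pool.Agent.H516R2.EQP3 Pool.Agent.H591R3.PHG

theorem XG_inB {u v : List Bool} (h : InB u v) : ∃ w, v = false :: false :: w := by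
  obtain ⟨h1, -⟩ := h
  refine ⟨u ++ v.drop (2 + u.length), ?_⟩
  calc v = v.take (2 + u.length) ++ v.drop (2 + u.length) :=
        (List.take_append_drop (2 + u.length) v).symm
    _ = _ := by rw [h1]; rfl

theorem XG_pad (K : ℕ) (w : List Bool) :
    ∃ w', padc K (false :: false :: w) = false :: false :: w' := by
  unfold padc
  exact ⟨_, rfl⟩

theorem XG (hp : St_PU) (hq : St_QUg) (hps : St_PS) (hc : St_CL) (hdg : St_DG) (hx : St_XSg)
    (hgx : St_GXg) (hco : St_COs) (hcp : St_CP) (hlo : St_LO) (hha : St_HA) : St_XG := by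
  intro K _
  obtain ⟨Φ₀, R', hR', hΦ₀, hcode, hpre, hred⟩ := hco K
  obtain ⟨-, hh2, hh3, hh4, hh5⟩ := hha
  refine ⟨R', hR', fun R => ?_⟩
  obtain ⟨Φ, hΦdef⟩ : ∃ Φ : Oracle → Oracle, ∀ B, Φ B = Φ₀ (hat K R B) :=
    ⟨fun B => Φ₀ (hat K R B), fun _ => rfl⟩
  obtain ⟨hid, C, hH, hC0, hPS⟩ := hps
  obtain ⟨Cq, hCq, hCq'⟩ := hq K
  obtain ⟨-, -, -, -, hal, -, -⟩ := hp
  have hLoc₀ : Loc Φ₀ := hlo Φ₀ hΦ₀
  have hLoc : Loc Φ := by
    intro B B' w h
    rw [hΦdef, hΦdef]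
    apply hLoc₀
    intro z hz
    apply hh4 K R
    intro z' hz'
    exact h z' (hz'.trans hz)
  have hGood : GoodW Φ := by
    have h := hgx Φ₀ hΦ₀ (hat K R) (hh5 K R) (hh4 K R)
    have he : Φ = fun B => Φ₀ (hat K R B) := funext hΦdef
    rw [he]
    exact h
  -- values of `al`
  have hval : ∀ (u : List Bool) (B B' : Oracle), (∀ z : List Bool, z.length ≤ blen u →
      B z = B' z) → al u B = al u B' := by
    intro u B B' h
    exact hal u B B' (fun z hz => h z (le_of_eq hz.2))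
  have g1 : ∃ B, Val Φ hid C B := by
    obtain ⟨B', -, hB'⟩ := hc Φ hid C hLoc hH (fun _ => false) 0 (fun u hu => by
      unfold blen at hu
      omega)
    exact ⟨B', hB'⟩
  have g2 : ∀ B : Oracle, (∀ N : ℕ, ∃ B' : Oracle, Val Φ hid C B' ∧
      ∀ z : List Bool, z.length ≤ N → B' z = B z) → Val Φ hid C B := by
    intro B h u
    obtain ⟨B', hB', he⟩ := h (blen u)
    have h1 : al u B' = al u B := hval u B' B he
    have hlen : u.length ≤ blen u := by
      unfold blen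
      omega
    have h2 : hid u (Φ B') = hid u (Φ B) := by
      apply hH
      intro z hz
      apply hLoc
      intro z' hz'
      exact he z' (by omega)
    have h3 := hB' u
    unfold EQP3.Cond at h3 ⊢
    rw [h1, h2] at h3
    exact h3
  have g3 : ∀ (M : Alg) (B : Oracle) (N : ℕ), Val Φ hid C B → ∃ (B' : Oracle) (N' : ℕ),
      Val Φ hid C B' ∧ (∀ z : List Bool, z.length ≤ N → B' z = B z) ∧
      ∀ B'' : Oracle, Val Φ hid C B'' → (∀ z : List Bool, z.length ≤ N' → B'' z = B' z) →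
        ∃ x, ¬ (M.out (Φ B'') x = some [true] ↔ al (false :: false :: x) B'' = 1 / 2) := by
    intro M B N hB
    obtain ⟨B', x, hB', he, hbad⟩ := hx Φ hid C hGood hLoc hH hC0 M B N hB
    obtain ⟨qb, hqb⟩ := M.out_local
    refine ⟨B', blen (false :: false :: x) + qb.eval x.length, hB', he, fun B'' _ h'' => ⟨x, ?_⟩⟩
    have h1 : al (false :: false :: x) B'' = al (false :: false :: x) B' :=
      hval _ _ _ (fun z hz => h'' z (by omega))
    have h2 : M.out (Φ B'') x = M.out (Φ B') x := by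
      obtain ⟨Q, -, hQ2, hQ3⟩ := hqb (Φ B') x
      apply hQ3
      intro q hq
      apply hLoc
      intro z hz
      apply h''
      have := hQ2 q hq
      omega
    rw [h1, h2]
    exact hbad
  obtain ⟨B, hB, hbad⟩ := hdg Alg (Val Φ hid C)
    (fun B M => ∃ x, ¬ (M.out (Φ B) x = some [true] ↔ al (false :: false :: x) B = 1 / 2))
    g1 g2 g3
  -- the circuits
  have hacc : ∀ u, accProb (Φ B) (Cq u) = (4 * al u B ^ 3 - 3 * al u B) ^ 2 := by
    intro u
    apply (hCq' u).2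
    intro v hv
    obtain ⟨w, rfl⟩ := XG_inB hv
    obtain ⟨w', hw'⟩ := XG_pad K w
    rw [hΦdef, hw', hpre, ← hw', hh2]
  have hacc1 : ∀ u, al u B = 1 / 2 → accProb (Φ B) (Cq u) = 1 := by
    intro u hu
    rw [hacc, hu]
    norm_num
  have hacc0 : ∀ u, al u B = 0 → accProb (Φ B) (Cq u) = 0 := by
    intro u hu
    rw [hacc, hu]
    norm_num
  refine ⟨Φ B, fun y hy => ?_, fun L => ⟨fun h => ?_, fun h => h.isPH⟩, fun L hL => ?_,
    {x | al (false :: false :: x) B = 1 / 2}, ?_, ?_⟩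
  · have hy1 : ∀ e x, y ≠ code R' e x := fun e x h => hy (Or.inl ⟨e, x, h⟩)
    have hy2 : ∀ v, y ≠ padc K v := fun v h => hy (Or.inr ⟨v, h⟩)
    rw [hΦdef, hcode _ _ hy1, hh3 K R B y hy2]
  · refine hcp (Φ B) (fun M p => ?_) L h
    obtain ⟨g, hg, hg'⟩ := hred M p
    refine ⟨g, hg, fun x => ?_⟩
    rw [hΦdef]
    exact hg' _ x
  · obtain ⟨g, hg, hgx'⟩ := hPS (Φ B) L hL
    refine ⟨fun x => Cq (g x), FX_comp hCq hg, fun x => ⟨(hCq' _).1, fun hxL => ?_,
      fun hxL => ?_⟩⟩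
    · apply hacc1
      exact ((hB (g x)).2 (hgx' x).1).2 ((hgx' x).2.1 hxL)
    · apply hacc0
      refine (hB (g x)).1.resolve_right (fun h => hxL ?_)
      exact (hgx' x).2.2 (((hB (g x)).2 (hgx' x).1).1 h)
  · refine ⟨fun x => Cq (false :: false :: x), FX_comp hCq FX_pre, fun x =>
      ⟨(hCq' _).1, fun hxL => hacc1 _ hxL, fun hxL => hacc0 _ ?_⟩⟩
    exact (hB _).1.resolve_right hxL
  · rintro ⟨V, ⟨M, hM⟩, hL⟩
    obtain ⟨x, hx⟩ := hbad M
    apply hx
    rw [hM x]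
    constructor
    · intro h
      exact (hL x).2 (Option.some.inj h)
    · intro h
      rw [(hL x).1 h]

end Pool.Agent.H516R2.EQP4
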