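import Pool.Agent.H516R2.EQP4.Props
import Pool.Agent.H620R2.GaugeQ.Q7
import Pool.Agent.H620R2.Gauge2.Trans
import Pool.Agent.H620R2.Gauge2.V7

/-!
# Task XH: the first gauge theorem
-/

set_option autoImplicit false

namespace Pool.Agent.H516R2.EQP4

open Pool.Agent.NPC Pool.Agent.H620R2.Gauge Finset H568R2 Pool.Agent.H676 Pool.Agent.H516R2.EQP
  Pool.Agent.H516R2.EQP2 Pool.Agent.H516R2.EQP3 Pool.Agent.H591R3.PHG

theorem XH_bqp {k : ℕ} {A : Oracle} {L : Set (List Bool)} (h : IsEQP k A L) : IsBQP A L := by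
  obtain ⟨C, hC, hq⟩ := h
  refine ⟨C, hC, fun x => ⟨fun hx => ?_, fun hx => ?_⟩⟩
  · rw [(hq x).2.1 hx]; norm_num
  · rw [(hq x).2.2 hx]; norm_num

theorem XH (hsp : St_SPg) (hnn : St_NNg) (hxg : St_XG) : St_XH := by
  intro f
  constructor
  · intro hnull ε hε
    by_contra hcon
    rw [Filter.not_frequently] at hcon
    obtain ⟨K₀, hK₀⟩ := hsp ε hε
    obtain ⟨R', hR', hall⟩ := hxg (max K₀ 1) (le_max_right _ _)
    refine hnn f (Tcd (max K₀ 1) R') _ ∅ ?_ ?_ ?_ hnull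
    · filter_upwards [hcon, hK₀ (max K₀ 1) (le_max_left _ _) R' hR'] with N h1 h2
      exact h2.trans (not_le.1 h1).le
    · simp
    · intro R _
      obtain ⟨A, h1, h2, h3, h4⟩ := hall R
      exact ⟨A, ⟨h2, h3, h4⟩, h1⟩
  · intro hf
    refine nullQ hf _ fun A hA => ?_
    exact (XH_bqp (hA.2.1 _ (hitLang_np A).isPSPACE)).withAdvice

end Pool.Agent.H516R2.EQP4
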