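import Pool.Agent.H516R2.EQP4.AllY
import Pool.Agent.H516R2.EQP4.COs
import Pool.Agent.H516R2.EQP4.GXg
import Pool.Agent.H516R2.EQP4.XSg
import Pool.Agent.H516R2.EQP4.XG
import Pool.Agent.H516R2.EQP4.XH

/-! The assembly of the first gauge theorem. -/

namespace Pool.Agent.H516R2.EQP4

open Pool.Agent.H516R2.EQP Pool.Agent.H516R2.EQP2 Pool.Agent.H516R2.EQP3

theorem all_XG : St_XG :=
  XG all_PU all_QUg PS all_CL DG (XSg all_PU all_HY all_CL BL all_VL)
    (GXg all_PU RT (SW LO RT)) COs CP LO all_HA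

theorem all_XH : St_XH := XH SPg NNg all_XG

end Pool.Agent.H516R2.EQP4
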