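import Pool.Agent.H516R2.EQP4.Props
import Pool.Agent.H516R2.EQP2.RT
import Pool.Agent.H516R2.EQP.DS
import Pool.Agent.NPC.Prog

/-! Quantified oracle algorithms relative to a coding by literals are good functions of the content
of a block (adapted from helper228's EQP3/GY). -/

set_option autoImplicit false

namespace Pool.Agent.H516R2.EQP4

open Pool.Agent.NPC Pool.Agent.H620R2.Gauge Finset H568R2 Pool.Agent.H676 Pool.Agent.H516R2.EQP
  Pool.Agent.H516R2.EQP2 Pool.Agent.H516R2.EQP3 Pool.Agent.H591R3.PHG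

/-- the arithmetic of the bound -/
theorem GYg_arith (κ k T t : ℕ) (ht : T + 2 + 4 * κ + k + 1 ≤ t) :
    (k : ℝ) * 2 ^ (T + 2) * (12 * (t : ℝ) * (1 / (24 * (t : ℝ)))) ^ (t + 1) ≤ (1 / 16) ^ κ := by
  have ht0 : (0 : ℝ) < t := by
    have : 0 < t := by omega
    exact_mod_cast this
  have h1 : 12 * (t : ℝ) * (1 / (24 * (t : ℝ))) = 1 / 2 := by
    field_simp
    norm_num
  rw [h1]
  have h2 : ((1 : ℝ) / 2) ^ (t + 1) ≤ (1 / 2) ^ (k + (T + 2) + 4 * κ) :=
    pow_le_pow_of_le_one (by norm_num) (by norm_num) (by omega)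
  have h3 : (k : ℝ) ≤ 2 ^ k := by exact_mod_cast (Nat.lt_two_pow_self (n := k)).le
  calc (k : ℝ) * 2 ^ (T + 2) * (1 / 2) ^ (t + 1)
      ≤ 2 ^ k * 2 ^ (T + 2) * (1 / 2) ^ (k + (T + 2) + 4 * κ) := by gcongr
    _ = (2 ^ k * (1 / 2) ^ k) * (2 ^ (T + 2) * (1 / 2) ^ (T + 2)) * ((1 / 2) ^ 4) ^ κ := by
        rw [pow_add, pow_add, pow_mul]
        ring
    _ = (1 / 16) ^ κ := by
        have e1 : ((2 : ℝ)) ^ k * (1 / 2) ^ k = 1 := by
          rw [← mul_pow]; norm_num
        have e2 : ((2 : ℝ)) ^ (T + 2) * (1 / 2) ^ (T + 2) = 1 := by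
          rw [← mul_pow]; norm_num
        have e3 : ((1 : ℝ) / 2) ^ 4 = 1 / 16 := by norm_num
        rw [e1, e2, e3]
        ring

/-- every bit of the oracle is a decision tree of depth one -/
theorem GYg_bit {Ψ : Oracle → Oracle} (hΨ : Lit Ψ) {I : Type} [Fintype I] [DecidableEq I] (u : List Bool) (B : Oracle)
    (φ : (I → Bool) → Cube (kap u) → Bool) (hφ : ∀ i, DTr 1 (fun a => φ a i)) (w : List Bool) :
    DTr 1 (fun a => Ψ (put u (φ a) B) w) := by
  rcases hΨ u w B with ⟨c, hc⟩ | ⟨i, c, hc⟩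
  · exact DTr.const ⟨c, fun a => hc _⟩
  · have h1 := (hφ i).comp (fun b => b ^^ c)
    refine (congrArg (DTr 1) (funext fun a => ?_)).mp h1
    exact (hc _).symm

open Classical in
theorem GYg_main {Ψ : Oracle → Oracle} (hΨ : Lit Ψ) (M : Alg) (k : ℕ) (u y : List Bool) (m t : ℕ)
    (ht : y.length + k * (2 * m + 1) + 2 + 4 * kap u + k + 1 ≤ t)
    (htM : M.p.eval (y.length + k * (2 * m + 1)) ≤ t) (B : Oracle) (b c : Bool)
    {I : Type} [Fintype I] [DecidableEq I]
    (φ : (I → Bool) → Cube (kap u) → Bool) (hφ : ∀ i, DTr 1 (fun a => φ a i)) :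
    Ex (wq ((1 / (24 * (t : ℝ))) ^ k)) (fun ρ : Restr I =>
      if ¬ DTr t (fun a => QO M m k b y (Ψ (put u (φ (ov ρ a)) B)) ^^ c) then (1 : ℝ) else 0) ≤
      (1 / 16) ^ kap u := by
  have ht1 : 1 ≤ t := by omega
  have ht' : (1 : ℝ) ≤ t := by exact_mod_cast ht1
  set q : ℝ := 1 / (24 * (t : ℝ)) with hq
  have hq0 : 0 ≤ q := by positivity
  have hq1 : q ≤ 1 / 3 := by
    rw [hq, div_le_div_iff₀ (by positivity) (by norm_num)]
    linarith
  have hqJ0 : 0 ≤ q ^ k := pow_nonneg hq0 _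
  have hqJ1 : q ^ k ≤ 1 := pow_le_one₀ hq0 (by linarith)
  have key := switch_alt (I := I) ht1 hq0 hq1 m
    (fun y' a => decide (M.out (Ψ (put u (φ a) B)) y' = some [true])) k y.length
    (fun y' hy' => by
      have h1 := RT I (fun a => Ψ (put u (φ a) B)) M y' 1 (fun w => GYg_bit hΨ u B φ hφ w)
      rw [one_mul] at h1
      exact h1.mono ((eval_mono M.p hy').trans htM))
  refine (le_trans ?_ key).trans (GYg_arith (kap u) k (y.length + k * (2 * m + 1)) t ht)
  refine Ex_mono (wq_nonneg hqJ0 hqJ1) fun ρ => ?_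
  by_cases h : ∀ y' : List Bool, y'.length ≤ y.length → ∀ b, DTr t (rs (QF m
      (fun y' a => decide (M.out (Ψ (put u (φ a) B)) y' = some [true])) k b y') ρ)
  · have h1 : DTr t (fun a => QO M m k b y (Ψ (put u (φ (ov ρ a)) B)) ^^ c) := by
      have h2 := (h y le_rfl b).comp (fun b => b ^^ c)
      refine (congrArg (DTr t) (funext fun a => ?_)).mp h2
      have h3 := Pool.Agent.H516R2.EQP.DS.2.2.1 (List Bool) I (fun a => Ψ (put u (φ a) B)) m
        (fun y' (A' : List Bool → Bool) => decide (M.out A' y' = some [true])) k b y (ov ρ a)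
      exact congrArg (· ^^ c) h3.symm
    rw [if_neg (not_not.2 h1), if_neg (not_not.2 h)]
  · rw [if_pos h]
    split_ifs <;> norm_num

theorem GYg : St_GYg := by
  intro M k p q
  refine ⟨M.p.comp (q + Polynomial.C k * (Polynomial.C 2 * p + 1)) +
    (q + Polynomial.C k * (Polynomial.C 2 * p + 1)) + Polynomial.C 4 * Polynomial.X +
    Polynomial.C (k + 3), ?_⟩
  intro Ψ hΨ u y m hy hm
  set P := M.p.comp (q + Polynomial.C k * (Polynomial.C 2 * p + 1)) +
    (q + Polynomial.C k * (Polynomial.C 2 * p + 1)) + Polynomial.C 4 * Polynomial.X +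
    Polynomial.C (k + 3) with hP
  have hPe : P.eval (kap u) = M.p.eval (q.eval (kap u) + k * (2 * p.eval (kap u) + 1)) +
      (q.eval (kap u) + k * (2 * p.eval (kap u) + 1)) + 4 * kap u + (k + 3) := by
    rw [hP]
    simp [Polynomial.eval_comp]
  have hT : y.length + k * (2 * m + 1) ≤ q.eval (kap u) + k * (2 * p.eval (kap u) + 1) :=
    Nat.add_le_add hy (Nat.mul_le_mul_left _ (by omega))
  have hMT := eval_mono M.p hT
  have ht : y.length + k * (2 * m + 1) + 2 + 4 * kap u + k + 1 ≤ P.eval (kap u) := by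
    rw [hPe]
    omega
  have htM : M.p.eval (y.length + k * (2 * m + 1)) ≤ P.eval (kap u) := by
    rw [hPe]
    omega
  refine ⟨by omega, fun B b c c0 => ⟨?_, ?_⟩⟩
  · intro z ρ₀
    exact GYg_main hΨ M k u y m _ ht htM B b c
      (fun p i => Sum.elim (ov ρ₀ p) z i ^^ c0 i) (fun i => by
        rcases i with j | j
        · simp only [Sum.elim_inl]
          cases hρ : ρ₀ j with
          | none =>
            refine Or.inr ⟨j, fun b => ⟨b ^^ c0 (Sum.inl j), fun a => ?_⟩⟩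
            simp [ov, hρ]
          | some b =>
            refine DTr.const ⟨b ^^ c0 (Sum.inl j), fun a => ?_⟩
            simp [ov, hρ]
        · exact DTr.const ⟨z j ^^ c0 (Sum.inr j), fun a => rfl⟩)
  · intro p
    exact GYg_main hΨ M k u y m _ ht htM B b c
      (fun z i => Sum.elim p z i ^^ c0 i) (fun i => by
        rcases i with j | j
        · exact DTr.const ⟨p j ^^ c0 (Sum.inl j), fun a => rfl⟩
        · refine Or.inr ⟨j, fun b => ⟨b ^^ c0 (Sum.inr j), fun a => ?_⟩⟩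
          simp)

end Pool.Agent.H516R2.EQP4
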