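import Pool.Agent.H516R2.EQP4.Props

/-! Task HA: facts about the padding (helper228). -/

set_option autoImplicit false

namespace Pool.Agent.H516R2.EQP4

open Pool.Agent.NPC Pool.Agent.H620R2.Gauge Finset H568R2 Pool.Agent.H676 Pool.Agent.H516R2.EQP
  Pool.Agent.H516R2.EQP2 Pool.Agent.H516R2.EQP3 Pool.Agent.H591R3.PHG

theorem HA_rep_inj : ∀ (a b : ℕ) (l l' : List Bool),
    List.replicate a false ++ true :: l = List.replicate b false ++ true :: l' → l = l' := by
  intro a
  induction a with
  | zero =>
    intro b l l' h
    cases b with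
    | zero => simpa using h
    | succ b => simp [List.replicate_succ] at h
  | succ a ih =>
    intro b l l' h
    cases b with
    | zero => simp [List.replicate_succ] at h
    | succ b =>
      simp only [List.replicate_succ, List.cons_append, List.cons.injEq, true_and] at h
      exact ih b l l' h

theorem HA_inj (c : ℕ) (v v' : List Bool) (h : padc c v = padc c v') : v = v' := by
  unfold padc at h
  have h1 := List.cons.inj h
  have h2 := congrArg List.reverse h1.2
  simp only [List.reverse_append, List.reverse_cons, List.reverse_replicate,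
    List.append_assoc, List.singleton_append] at h2
  have h3 := HA_rep_inj _ _ _ _ h2
  exact List.reverse_injective h3

theorem HA_pos (c : ℕ) (R B : Oracle) (v : List Bool) : hat c R B (padc c v) = B v := by
  have h : ∃ v', padc c v = padc c v' := ⟨v, rfl⟩
  unfold hat
  rw [dif_pos h]
  rw [← HA_inj c v _ h.choose_spec]

theorem HA_neg (c : ℕ) (R B : Oracle) (w : List Bool) (h : ∀ v, w ≠ padc c v) :
    hat c R B w = R w := by
  unfold hat
  rw [dif_neg]
  rintro ⟨v, hv⟩
  exact h v hv

theorem HA_len (c : ℕ) (v : List Bool) : v.length ≤ (padc c v).length := by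
  unfold padc
  simp only [List.length_cons, List.length_append]
  omega

theorem HA_loc (c : ℕ) (R : Oracle) : Loc (hat c R) := by
  intro B B' w h
  by_cases hw : ∃ v, w = padc c v
  · obtain ⟨v, rfl⟩ := hw
    rw [HA_pos, HA_pos]
    exact h v (HA_len c v)
  · push Not at hw
    rw [HA_neg c R B w hw, HA_neg c R B' w hw]

theorem HA (hp : St_PU) : St_HA := by
  obtain ⟨-, -, -, -, -, -, h7⟩ := hp
  refine ⟨HA_inj, HA_pos, HA_neg, HA_loc, fun c R u z B => ?_⟩
  by_cases hz : ∃ v, z = padc c v
  · obtain ⟨v, rfl⟩ := hz
    simp only [HA_pos]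
    exact h7 u v B
  · push Not at hz
    left
    exact ⟨R z, fun a => HA_neg c R _ z hz⟩

end Pool.Agent.H516R2.EQP4
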