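import Pool.Agent.H516R2.EQP4.Props
import Pool.Agent.H516R2.EQP3.LF

/-! Task LH: the leaves begin with `true`. -/

set_option autoImplicit false

namespace Pool.Agent.H516R2.EQP4

open Pool.Agent.NPC Pool.Agent.H620R2.Gauge Finset H568R2 Pool.Agent.H676 Pool.Agent.H516R2.EQP
  Pool.Agent.H516R2.EQP2 Pool.Agent.H516R2.EQP3 Pool.Agent.H591R3.PHG

theorem LH : St_LH := by
  intro as n k K hk has g
  have hne : as ≠ [] := by
    intro h
    rw [h] at hk
    simp at hk
  obtain ⟨j, r, h⟩ := LF_shape as n K g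
  obtain ⟨r', h'⟩ := LF_enc as hne has (8 * n) (bitsOf (n + 11) j.val)
  refine ⟨r' ++ r, ?_⟩
  rw [h]
  unfold H591R3.PHG.inp
  rw [h', List.cons_append]

end Pool.Agent.H516R2.EQP4
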