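import Pool.Agent.H516R2.EQP4.Props

/-!
# Task NNg: the mass argument with an exceptional null set
-/

set_option autoImplicit false

namespace Pool.Agent.H516R2.EQP4

open Pool.Agent.NPC Pool.Agent.H620R2.Gauge Finset H568R2 Pool.Agent.H676 Pool.Agent.H516R2.EQP
  Pool.Agent.H516R2.EQP2 Pool.Agent.H516R2.EQP3 Pool.Agent.H591R3.PHG MeasureTheory

open Classical in
theorem NNg_mass (Φ : Oracle → Oracle) (T : Set (List Bool)) (Bad : Set Oracle)
    (hBad : ranO Bad = 0) (hΦ : ∀ B, ∀ y ∉ T, Φ B y = B y)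
    (S : Set (List Bool)) (hS : ∀ B, B ∉ Bad → ∃ σ ∈ S, Extends (Φ B) σ) :
    1 ≤ ∑' σ : S, ENNReal.ofReal
      (2 ^ ((((Finset.range σ.1.length).filter (fun i => str i ∈ T)).card : ℝ) -
        (σ.1.length : ℝ))) := by
  have h1 : (Set.univ : Set Oracle) ⊆ Bad ∪ ⋃ σ : S, {B | Extends (Φ B) σ.1} := by
    intro B _
    by_cases hB : B ∈ Bad
    · exact Or.inl hB
    · obtain ⟨σ, hσ, h⟩ := hS B hB
      exact Or.inr (Set.mem_iUnion.mpr ⟨⟨σ, hσ⟩, h⟩)
  calc (1 : ENNReal) = ranO Set.univ := measure_univ.symm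
    _ ≤ ranO (Bad ∪ ⋃ σ : S, {B | Extends (Φ B) σ.1}) := measure_mono h1
    _ ≤ ranO Bad + ranO (⋃ σ : S, {B | Extends (Φ B) σ.1}) := measure_union_le _ _
    _ = ranO (⋃ σ : S, {B | Extends (Φ B) σ.1}) := by rw [hBad, zero_add]
    _ ≤ ∑' σ : S, ranO {B | Extends (Φ B) σ.1} := measure_iUnion_le _
    _ ≤ _ := ENNReal.tsum_le_tsum (fun σ => ranO_extends Φ T hΦ σ.1)

theorem NNg : St_NNg := by
  classical
  intro f T O Bad hf hBad hO hnull
  -- the modification
  have hex : ∀ R : Oracle, ∃ A : Oracle, (∀ y, y ∉ T → A y = R y) ∧ (R ∉ Bad → A ∈ O) := by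
    intro R
    by_cases hR : R ∈ Bad
    · exact ⟨R, fun _ _ => rfl, fun h => absurd hR h⟩
    · obtain ⟨A, hA, h⟩ := hO R hR
      exact ⟨A, h, fun _ => hA⟩
  choose Φ hΦ hΦO using hex
  obtain ⟨N₀, hN₀⟩ := Filter.eventually_atTop.1 hf
  -- the bound for the short sequences
  obtain ⟨δ, hδ, hδ1, hδ2⟩ : ∃ δ : ℝ, 0 < δ ∧ δ < 1 ∧
      ∀ N < N₀, δ < 2 ^ (f N - N) := by
    have h1 : ∀ M : ℕ, ∃ δ : ℝ, 0 < δ ∧ δ < 1 ∧ ∀ N < M, δ < 2 ^ (f N - N) := by
      intro M
      induction M with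
      | zero => exact ⟨1 / 2, by norm_num, by norm_num, fun N hN => by omega⟩
      | succ M ih =>
        obtain ⟨δ, h1, h2, h3⟩ := ih
        have h4 : (0 : ℝ) < 2 ^ (f M - M) := Real.rpow_pos_of_pos (by norm_num) _
        refine ⟨min δ (2 ^ (f M - M) / 2), lt_min h1 (by positivity),
          (min_le_left _ _).trans_lt h2, ?_⟩
        intro N hN
        rcases Nat.lt_succ_iff_lt_or_eq.1 hN with h | h
        · exact (min_le_left _ _).trans_lt (h3 N h)
        · subst h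
          exact (min_le_right _ _).trans_lt (by linarith)
    exact h1 N₀
  obtain ⟨S, hS, hsum⟩ := hnull δ hδ
  have hm := NNg_mass Φ T Bad hBad (fun B y hy => hΦ B y hy) S
    (fun B hB => hS (Φ B) (hΦO B hB))
  have hle : ∀ σ : S, ENNReal.ofReal
      (2 ^ ((((Finset.range σ.1.length).filter (fun i => str i ∈ T)).card : ℝ) -
        (σ.1.length : ℝ))) ≤ ENNReal.ofReal (2 ^ (f σ.1.length - σ.1.length)) := by
    intro σ
    have hlen : N₀ ≤ σ.1.length := by
      by_contra hlt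
      push Not at hlt
      have h1 := hδ2 _ hlt
      have h2 : ENNReal.ofReal (2 ^ (f σ.1.length - σ.1.length)) ≤ ENNReal.ofReal δ :=
        (ENNReal.le_tsum σ).trans hsum
      have h3 := (ENNReal.ofReal_le_ofReal_iff hδ.le).1 h2
      linarith
    have h1 := hN₀ _ hlen
    apply ENNReal.ofReal_le_ofReal
    apply Real.rpow_le_rpow_of_exponent_le (by norm_num)
    linarith
  have h1 : (1 : ENNReal) ≤ ENNReal.ofReal δ := hm.trans ((ENNReal.tsum_le_tsum hle).trans hsum)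
  rw [← ENNReal.ofReal_one] at h1
  have h2 := (ENNReal.ofReal_le_ofReal_iff hδ.le).1 h1
  linarith

end Pool.Agent.H516R2.EQP4
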