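import Pool.Agent.H516R2.EQP4.Props

/-! NYg: asymptotics (adapted from EQP3/NY). -/

set_option autoImplicit false

namespace Pool.Agent.H516R2.EQP4

theorem NYg_poly (p : Polynomial ℕ) : ∃ C d : ℕ, ∀ n : ℕ, p.eval n ≤ C * (n + 1) ^ d := by
  induction p using Polynomial.induction_on' with
  | add p q hp hq =>
    obtain ⟨C1, d1, h1⟩ := hp
    obtain ⟨C2, d2, h2⟩ := hq
    refine ⟨C1 + C2, d1 + d2, fun n => ?_⟩
    rw [Polynomial.eval_add, add_mul]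
    have h3 : (n + 1) ^ d1 ≤ (n + 1) ^ (d1 + d2) := Nat.pow_le_pow_right (by omega) (by omega)
    have h4 : (n + 1) ^ d2 ≤ (n + 1) ^ (d1 + d2) := Nat.pow_le_pow_right (by omega) (by omega)
    exact add_le_add ((h1 n).trans (Nat.mul_le_mul_left _ h3))
      ((h2 n).trans (Nat.mul_le_mul_left _ h4))
  | monomial k a =>
    refine ⟨a, k, fun n => ?_⟩
    rw [Polynomial.eval_monomial]
    exact Nat.mul_le_mul_left _ (Nat.pow_le_pow_left (by omega) _)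

theorem NYg_pow (d : ℕ) : ∃ v0 : ℕ, ∀ v ≥ v0, (v + 1) ^ d ≤ 2 ^ v := by
  have h := tendsto_pow_const_div_const_pow_of_one_lt d (r := 2) (by norm_num)
  have h1 : ∀ᶠ n : ℕ in Filter.atTop, (n : ℝ) ^ d / 2 ^ n < 1 / 2 :=
    h.eventually_lt_const (by norm_num)
  obtain ⟨N, hN⟩ := Filter.eventually_atTop.mp h1
  refine ⟨N, fun v hv => ?_⟩
  have := hN (v + 1) (by omega)
  rw [div_lt_iff₀ (by positivity), pow_succ] at this
  have h2 : ((v + 1 : ℕ) : ℝ) ^ d ≤ 2 ^ v := by linarith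
  exact_mod_cast h2

theorem NYg_ev (p : Polynomial ℕ) : ∃ n0 : ℕ, ∀ n ≥ n0, p.eval n ≤ 2 ^ (2 * (n / 8)) := by
  obtain ⟨C, d, h⟩ := NYg_poly p
  obtain ⟨v0, hv⟩ := NYg_pow d
  refine ⟨8 * (v0 + C + 3 * d) + 8, fun n hn => ?_⟩
  have h1 : v0 + C + 3 * d ≤ n / 8 := by omega
  set v := n / 8 with hvd
  have h2 : n + 1 ≤ 8 * (v + 1) := by omega
  have h3 : C * 8 ^ d ≤ 2 ^ v := by
    have e : (8 : ℕ) ^ d = 2 ^ (3 * d) := by rw [pow_mul]; norm_num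
    calc C * 8 ^ d ≤ 2 ^ C * 2 ^ (3 * d) := by
          rw [e]; exact Nat.mul_le_mul_right _ (Nat.lt_two_pow_self).le
      _ = 2 ^ (C + 3 * d) := by rw [pow_add]
      _ ≤ 2 ^ v := Nat.pow_le_pow_right (by norm_num) (by omega)
  calc p.eval n ≤ C * (n + 1) ^ d := h n
    _ ≤ C * (8 * (v + 1)) ^ d := Nat.mul_le_mul_left _ (Nat.pow_le_pow_left h2 _)
    _ = (C * 8 ^ d) * (v + 1) ^ d := by rw [mul_pow]; ring
    _ ≤ 2 ^ v * 2 ^ v := Nat.mul_le_mul h3 (hv v (by omega))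
    _ = 2 ^ (2 * v) := by rw [← pow_add]; congr 1; ring

theorem NYg : St_NYg := by
  intro r s k δ hδ
  obtain ⟨j, hj⟩ := exists_pow_lt_of_lt_one hδ (show (1 / 2 : ℝ) < 1 by norm_num)
  obtain ⟨n1, h1⟩ := NYg_ev r
  obtain ⟨n2, h2⟩ := NYg_ev (s + Polynomial.C (k + 6 + j))
  refine ⟨n1 + n2 + 24 + 8 * j, fun n hn => ⟨by omega, h1 n (by omega), ?_, ?_⟩⟩
  · have hjpos : (0 : ℝ) < (1 / 2) ^ j := by positivity
    have e := h2 n (by omega)
    simp only [Polynomial.eval_add, Polynomial.eval_C] at e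
    have e1 : (1 / 2 : ℝ) ^ (2 ^ (2 * (n / 8)) + 1) ≤ (1 / 2) ^ (s.eval n + (k + 6 + j) + 1) :=
      pow_le_pow_of_le_one (by norm_num) (by norm_num) (by omega)
    have e2 : (1 / 2 : ℝ) ^ (2 ^ (n / 8)) ≤ (1 / 2) ^ (8 + j) := by
      apply pow_le_pow_of_le_one (by norm_num) (by norm_num)
      have h3 : j < 2 ^ j := Nat.lt_two_pow_self
      calc 8 + j ≤ 2 ^ (3 + j) := by rw [pow_add]; omega
        _ ≤ 2 ^ (n / 8) := Nat.pow_le_pow_right (by norm_num) (by omega)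
    have e2' : (1 / 2 : ℝ) ^ (8 + j) = (1 / 256) * (1 / 2) ^ j := by
      rw [pow_add]; norm_num
    have e3 : (k : ℝ) * (1 / 2) ^ k ≤ 1 := by
      have : (k : ℝ) ≤ 2 ^ k := by exact_mod_cast (Nat.lt_two_pow_self).le
      calc (k : ℝ) * (1 / 2) ^ k ≤ 2 ^ k * (1 / 2) ^ k :=
            mul_le_mul_of_nonneg_right this (by positivity)
        _ = 1 := by rw [← mul_pow]; norm_num
    have e4 : (k : ℝ) * (2 ^ (s.eval n + 2) * (1 / 2) ^ (s.eval n + (k + 6 + j) + 1)) =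
        (k * (1 / 2) ^ k) * ((1 / 32) * (1 / 2) ^ j) := by
      have : (2 : ℝ) ^ (s.eval n + 2) * (1 / 2) ^ (s.eval n + (k + 6 + j) + 1) =
          (2 * (1 / 2)) ^ (s.eval n) * (1 / 2) ^ k * (2 ^ 2 * (1 / 2) ^ 7) * (1 / 2) ^ j := by
        rw [mul_pow]; ring
      rw [this]
      have h5 : ((2 : ℝ) * (1 / 2)) ^ (s.eval n) = 1 := by norm_num
      rw [h5]
      ring
    have e5 : (k : ℝ) * (2 ^ (s.eval n + 2) * (1 / 2) ^ (2 ^ (2 * (n / 8)) + 1)) ≤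
        (1 / 32) * (1 / 2) ^ j := by
      calc _ ≤ (k : ℝ) * (2 ^ (s.eval n + 2) * (1 / 2) ^ (s.eval n + (k + 6 + j) + 1)) := by
            apply mul_le_mul_of_nonneg_left _ (Nat.cast_nonneg _)
            exact mul_le_mul_of_nonneg_left e1 (by positivity)
        _ = (k * (1 / 2) ^ k) * ((1 / 32) * (1 / 2) ^ j) := e4
        _ ≤ 1 * ((1 / 32) * (1 / 2) ^ j) := mul_le_mul_of_nonneg_right e3 (by positivity)
        _ = (1 / 32) * (1 / 2) ^ j := one_mul _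
    rw [e2'] at e2
    linarith
  · have e : n / 8 + 13 ≤ n := by omega
    obtain ⟨m, hm⟩ := Nat.exists_eq_add_of_le e
    have h3 : (2 : ℝ) ^ (n / 8 + 11) * (1 / 2) ^ n = (1 / 4) * (1 / 2) ^ m := by
      have : (2 : ℝ) ^ (n / 8 + 11) * (1 / 2) ^ (n / 8 + 13 + m) =
          (2 * (1 / 2)) ^ (n / 8) * (2 ^ 11 * (1 / 2) ^ 13) * (1 / 2) ^ m := by
        rw [mul_pow]; ring
      conv_lhs => rw [hm]
      have hv : (n / 8 + 13 + m) / 8 = n / 8 := by rw [← hm]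
      rw [hv, this]
      norm_num
    rw [h3]
    have : (1 / 2 : ℝ) ^ m ≤ 1 := pow_le_one₀ (by norm_num) (by norm_num)
    linarith

end Pool.Agent.H516R2.EQP4
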