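import Pool.Agent.H516R2.EQP4.Props
import Pool.Agent.H516R2.EQP2.RT

/-! Oracle algorithms are decision trees in the bits at the leaves (helper771, after QD.lean by
helper228) -/

set_option autoImplicit false

namespace Pool.Agent.H516R2.EQP4

open Pool.Agent.NPC Pool.Agent.H620R2.Gauge Finset H568R2 Pool.Agent.H676 Pool.Agent.H516R2.EQP
  Pool.Agent.H516R2.EQP2 Pool.Agent.H516R2.EQP3 Pool.Agent.H591R3.PHG

theorem QDg (hha : St_HA) (hrt : St_RT) : St_QDg := by
  classical
  intro M as n K hinj hlead c B R y
  have h := hrt (Idx (Fin K) (8 * n :: pw as)) (fun z => hat c (ovw as n K z R) B) M y 1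
    (fun w => ?_)
  · rw [one_mul] at h
    convert h
  · by_cases hw : ∃ v, w = padc c v
    · obtain ⟨v, rfl⟩ := hw
      refine DTr.const ⟨B v, fun z => ?_⟩
      exact hha.2.1 c (ovw as n K z R) B v
    · have hw' : ∀ v, w ≠ padc c v := fun v hv => hw ⟨v, hv⟩
      by_cases hg : ∃ g, lf as n K g = w
      · refine Or.inr ⟨hg.choose, fun b => ⟨b, fun z => ?_⟩⟩
        change hat c (ovw as n K (Function.update z hg.choose b) R) B w = b
        rw [hha.2.2.1 c _ B w hw']
        simp only [ovw, dif_pos hg, Function.update_self]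
      · refine DTr.const ⟨R w, fun z => ?_⟩
        rw [hha.2.2.1 c _ B w hw']
        simp only [ovw, dif_neg hg]

end Pool.Agent.H516R2.EQP4
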