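import Pool.Agent.H516R2.EQP4.Props
import Pool.Agent.H516R2.EQP3.QU

/-! # Task QUg: the circuits for the padded blocks -/

set_option autoImplicit false

namespace Pool.Agent.H516R2.EQP4

open Pool.Agent.NPC Pool.Agent.H620R2.Gauge Finset H568R2 Pool.Agent.H676 Pool.Agent.H516R2.EQP
  Pool.Agent.H516R2.EQP2 Pool.Agent.H516R2.EQP3 Pool.Agent.H591R3.PHG

/-- the qubits of a question about a padded string -/
def QUg_q (c : ℕ) (u : List Bool) (q : List ℕ) : List ℕ :=
  (6 + 3 * kap u) :: (QU_pre u ++ q ++ (1 :: List.replicate (blen u ^ c) (6 + 3 * kap u)))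

def QUg_orc1 (c : ℕ) (u : List Bool) : Gate :=
  Sum.inr (true, QUg_q c u (0 :: idxQ (kap u)), 2)

def QUg_orc2 (c : ℕ) (u : List Bool) : Gate :=
  Sum.inr (true, QUg_q c u (1 :: idxQ (kap u)), 2)

def QUg_AG (c : ℕ) (u : List Bool) : List Gate :=
  (idxQ (kap u)).map had ++ QUg_orc1 c u :: (midQ (kap u)).map had ++
    QUg_orc2 c u :: (idxQ (kap u)).map had

def QUg_AtG (c : ℕ) (u : List Bool) : List Gate :=
  (idxQ (kap u)).map had ++ QUg_orc2 c u :: (midQ (kap u)).map had ++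
    QUg_orc1 c u :: (idxQ (kap u)).map had

def QUg_circ (c : ℕ) (u : List Bool) : List Unit × List Gate :=
  (List.replicate (6 + 3 * kap u) (),
    prepG (kap u) ++ QUg_AG c u ++ Pool.Agent.H516R2.EQP.refl (kap u) :: QUg_AtG c u ++
      Pool.Agent.H516R2.EQP.refl (kap u) :: QUg_AG c u ++ [fin (kap u)])

/-! ### the acceptance probability -/

theorem QUg_len (u : List Bool) {m : ℕ} (i : ℕ) (t : Fin m → Bool) :
    InB u (false :: false :: (u ++ (i :: idxQ (kap u)).map (rd t))) := by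
  constructor
  · show (false :: false :: (u ++ (i :: idxQ (kap u)).map (rd t))).take (2 + u.length) = _
    rw [Nat.add_comm, List.take_succ_cons, List.take_succ_cons, List.take_append_of_le_length le_rfl,
      List.take_length]
  · unfold blen idxQ
    simp only [List.length_cons, List.length_append, List.length_map, List.length_range]
    omega

theorem QUg_map (c : ℕ) (u : List Bool) {m : ℕ} (hm : ¬ 6 + 3 * kap u < m) (i : ℕ)
    (t : Fin m → Bool) (ht : rd t 1 = true) :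
    (QUg_q c u (i :: idxQ (kap u))).map (rd t) =
      padc c (false :: false :: (u ++ (i :: idxQ (kap u)).map (rd t))) := by
  have h1 : rd t (6 + 3 * kap u) = false := by
    unfold rd
    rw [dif_neg hm]
  unfold QUg_q padc
  rw [(QUg_len u i t).2, List.map_cons, h1, List.map_append, QU_map u hm _ t ht]
  simp only [List.map_cons, List.map_replicate, ht, h1]

theorem QUg_orc {c : ℕ} {A B : Oracle} {u : List Bool}
    (hAB : ∀ v, InB u v → A (padc c v) = B v) {m : ℕ} (hm : ¬ 6 + 3 * kap u < m) (i : ℕ)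
    (ψ : (Fin m → Bool) → ℝ) (hψ : QU_S ψ) :
    gateAct A (Sum.inr (true, QUg_q c u (i :: idxQ (kap u)), 2)) ψ =
      gateAct (tlU u B) (Sum.inr (true, i :: idxQ (kap u), 2)) ψ := by
  funext s
  show ψ (flipIf (fun s => A ((QUg_q c u (i :: idxQ (kap u))).map (rd s))) 2 s) =
    ψ (flipIf (fun s => tlU u B ((i :: idxQ (kap u)).map (rd s))) 2 s)
  by_cases hs : rd s 1 = true
  · congr 1
    unfold flipIf
    by_cases h2 : 2 < m
    · rw [dif_pos h2, dif_pos h2]
      simp only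
      rw [QUg_map c u hm i _ (by rw [ql_rd_ne s 2 h2 _ 1 (by omega)]; exact hs),
        hAB _ (QUg_len u i _)]
      rfl
    · rw [dif_neg h2, dif_neg h2]
  · have hs' : rd s 1 = false := by
      cases h : rd s 1
      · rfl
      · exact absurd h hs
    rw [hψ _ (by rw [QU_rd_flip _ 2 (by omega) s]; exact hs'),
      hψ _ (by rw [QU_rd_flip _ 2 (by omega) s]; exact hs')]

/-- the gate lists `l` (relative to `A`) and `l'` (relative to `tlU u B`) do the same on states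
with the support condition, and they preserve it -/
def QUg_R (A B : Oracle) (u : List Bool) (m : ℕ) (l l' : List Gate) : Prop :=
  ∀ ψ : (Fin m → Bool) → ℝ, QU_S ψ →
    circAct A l ψ = circAct (tlU u B) l' ψ ∧ QU_S (circAct (tlU u B) l' ψ)

theorem QUg_R_append {A B : Oracle} {u : List Bool} {m : ℕ} {l1 l1' l2 l2' : List Gate}
    (h1 : QUg_R A B u m l1 l1') (h2 : QUg_R A B u m l2 l2') :
    QUg_R A B u m (l1 ++ l2) (l1' ++ l2') := by
  intro ψ hψ
  rw [ql_append, ql_append, (h1 ψ hψ).1]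
  exact h2 _ (h1 ψ hψ).2

theorem QUg_R_nil (A B : Oracle) (u : List Bool) (m : ℕ) : QUg_R A B u m [] [] :=
  fun _ h => ⟨rfl, h⟩

theorem QUg_R_cons {A B : Oracle} {u : List Bool} {m : ℕ} {g g' : Gate} {l l' : List Gate}
    (h1 : ∀ ψ : (Fin m → Bool) → ℝ, QU_S ψ →
      gateAct A g ψ = gateAct (tlU u B) g' ψ ∧ QU_S (gateAct (tlU u B) g' ψ))
    (h2 : QUg_R A B u m l l') : QUg_R A B u m (g :: l) (g' :: l') := by
  intro ψ hψ
  change circAct A l (gateAct A g ψ) = circAct (tlU u B) l' (gateAct (tlU u B) g' ψ) ∧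
    QU_S (circAct (tlU u B) l' (gateAct (tlU u B) g' ψ))
  rw [(h1 ψ hψ).1]
  exact h2 _ (h1 ψ hψ).2

theorem QUg_g_had (A B : Oracle) (u : List Bool) {m : ℕ} (i : ℕ) (hi : i ≠ 1)
    (ψ : (Fin m → Bool) → ℝ) (hψ : QU_S ψ) :
    gateAct A (had i) ψ = gateAct (tlU u B) (had i) ψ ∧ QU_S (gateAct (tlU u B) (had i) ψ) :=
  ⟨rfl, QU_S_had _ i hi ψ hψ⟩

theorem QUg_g_ctl (A B : Oracle) (u : List Bool) {m : ℕ} (q : List ℕ) (k : ℕ) (hk : k ≠ 1)
    (ψ : (Fin m → Bool) → ℝ) (hψ : QU_S ψ) :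
    gateAct A (Sum.inr (false, q, k)) ψ = gateAct (tlU u B) (Sum.inr (false, q, k)) ψ ∧
      QU_S (gateAct (tlU u B) (Sum.inr (false, q, k)) ψ) :=
  ⟨rfl, QU_S_flip _ k hk ψ hψ⟩

theorem QUg_g_orc {c : ℕ} {A B : Oracle} {u : List Bool}
    (hAB : ∀ v, InB u v → A (padc c v) = B v) {m : ℕ} (hm : ¬ 6 + 3 * kap u < m) (i : ℕ)
    (ψ : (Fin m → Bool) → ℝ) (hψ : QU_S ψ) :
    gateAct A (Sum.inr (true, QUg_q c u (i :: idxQ (kap u)), 2)) ψ =
        gateAct (tlU u B) (Sum.inr (true, i :: idxQ (kap u), 2)) ψ ∧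
      QU_S (gateAct (tlU u B) (Sum.inr (true, i :: idxQ (kap u), 2)) ψ) :=
  ⟨QUg_orc hAB hm i ψ hψ, QU_S_flip _ 2 (by omega) ψ hψ⟩

theorem QUg_R_had (A B : Oracle) (u : List Bool) (m : ℕ) : ∀ l : List ℕ, (∀ i ∈ l, i ≠ 1) →
    QUg_R A B u m (l.map had) (l.map had)
  | [], _ => QUg_R_nil A B u m
  | i :: l, h => QUg_R_cons (fun ψ hψ => QUg_g_had A B u i (h i (by simp)) ψ hψ)
      (QUg_R_had A B u m l fun j hj => h j (by simp [hj]))

theorem QUg_R_nt (A B : Oracle) (u : List Bool) (m : ℕ) : ∀ l : List ℕ, (∀ i ∈ l, i ≠ 1) →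
    QUg_R A B u m (l.map nt) (l.map nt)
  | [], _ => QUg_R_nil A B u m
  | i :: l, h => QUg_R_cons (fun ψ hψ => QUg_g_ctl A B u [] i (h i (by simp)) ψ hψ)
      (QUg_R_nt A B u m l fun j hj => h j (by simp [hj]))

theorem QUg_R_A {c : ℕ} {A B : Oracle} {u : List Bool}
    (hAB : ∀ v, InB u v → A (padc c v) = B v) {m : ℕ} (hm : ¬ 6 + 3 * kap u < m) :
    QUg_R A B u m (QUg_AG c u) (AG (kap u)) := by
  unfold QUg_AG AG
  exact QUg_R_append (QUg_R_append (QUg_R_had A B u m _ (QU_idx_ne _))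
    (QUg_R_cons (fun ψ hψ => QUg_g_orc hAB hm _ ψ hψ) (QUg_R_had A B u m _ (QU_mid_ne _))))
    (QUg_R_cons (fun ψ hψ => QUg_g_orc hAB hm _ ψ hψ) (QUg_R_had A B u m _ (QU_idx_ne _)))

theorem QUg_R_At {c : ℕ} {A B : Oracle} {u : List Bool}
    (hAB : ∀ v, InB u v → A (padc c v) = B v) {m : ℕ} (hm : ¬ 6 + 3 * kap u < m) :
    QUg_R A B u m (QUg_AtG c u) (AtG (kap u)) := by
  unfold QUg_AtG AtG
  exact QUg_R_append (QUg_R_append (QUg_R_had A B u m _ (QU_idx_ne _))
    (QUg_R_cons (fun ψ hψ => QUg_g_orc hAB hm _ ψ hψ) (QUg_R_had A B u m _ (QU_mid_ne _))))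
    (QUg_R_cons (fun ψ hψ => QUg_g_orc hAB hm _ ψ hψ) (QUg_R_had A B u m _ (QU_idx_ne _)))

theorem QUg_R_tail {c : ℕ} {A B : Oracle} {u : List Bool}
    (hAB : ∀ v, InB u v → A (padc c v) = B v) {m : ℕ} (hm : ¬ 6 + 3 * kap u < m) :
    QUg_R A B u m (QU_tail (kap u) (QUg_AG c u) (QUg_AtG c u))
      (QU_tail (kap u) (AG (kap u)) (AtG (kap u))) := by
  unfold QU_tail
  refine QUg_R_append (QUg_R_append (QUg_R_append (QUg_R_append ?_ (QUg_R_A hAB hm))
    (QUg_R_cons (fun ψ hψ => QUg_g_ctl A B u _ 2 (by omega) ψ hψ) (QUg_R_At hAB hm)))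
    (QUg_R_cons (fun ψ hψ => QUg_g_ctl A B u _ 2 (by omega) ψ hψ) (QUg_R_A hAB hm)))
    (QUg_R_cons (fun ψ hψ => QUg_g_ctl A B u _ 0 (by omega) ψ hψ) (QUg_R_nil A B u m))
  exact QUg_R_cons (fun ψ hψ => QUg_g_ctl A B u [] 2 (by omega) ψ hψ)
    (QUg_R_cons (fun ψ hψ => QUg_g_had A B u 2 (by omega) ψ hψ)
      (QUg_R_nt A B u m _ (QU_idx_ne _)))

theorem QUg_acc {c : ℕ} {A B : Oracle} {u : List Bool}
    (hAB : ∀ v, InB u v → A (padc c v) = B v) :
    accProb A (QUg_circ c u) = accProb (tlU u B) (circ (kap u)) := by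
  have hlen : (circ (kap u)).1.length = 6 + 3 * kap u := by
    show (List.replicate (6 + 3 * kap u) ()).length = _
    rw [List.length_replicate]
  have hm : ¬ 6 + 3 * kap u < (circ (kap u)).1.length := by
    rw [hlen]
    omega
  have hm1 : 1 < (circ (kap u)).1.length := by
    rw [hlen]
    omega
  have h := (QUg_R_tail hAB hm _ (QU_init A hm1)).1
  have e1 : circAct A (QUg_circ c u).2 (initSt (circ (kap u)).1.length) =
      circAct A (QU_tail (kap u) (QUg_AG c u) (QUg_AtG c u))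
        (gateAct A (nt 1) (initSt (circ (kap u)).1.length)) := rfl
  have e2 : circAct (tlU u B) (circ (kap u)).2 (initSt (circ (kap u)).1.length) =
      circAct (tlU u B) (QU_tail (kap u) (AG (kap u)) (AtG (kap u)))
        (gateAct A (nt 1) (initSt (circ (kap u)).1.length)) := rfl
  change (∑ s : Fin (circ (kap u)).1.length → Bool,
    if rd s 0 then circAct A (QUg_circ c u).2 (initSt (circ (kap u)).1.length) s ^ 2 else 0) = _
  rw [e1, h, ← e2]
  rfl

/-! ### polynomial time -/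

theorem QUg_blen : UPoly (fun u : List Bool => blen u) := by
  unfold blen
  exact UPoly.add (UPoly.add (UPoly.const 6) QC_len) (UPoly.mul (UPoly.const 3) QU_kap)

theorem QUg_pow (c : ℕ) : UPoly (fun u : List Bool => blen u ^ c) := by
  induction c with
  | zero => exact (UPoly.const 1)
  | succ c ih => exact UPoly.mul ih QUg_blen

theorem QUg_pad (c : ℕ) :
    NPC.Poly (fun u : List Bool => List.replicate (blen u ^ c) (6 + 3 * kap u)) :=
  (NPC.Poly.map (F := fun (u : List Bool) (_ : Unit) => 6 + 3 * kap u) (QUg_pow c)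
    (QU_n.comp (NPC.Poly.fst NPC.Poly.id))).congr fun u => by simp

theorem QUg_qP (c i : ℕ) : NPC.Poly (fun u : List Bool => QUg_q c u (i :: idxQ (kap u))) := by
  have h : NPC.Poly (fun u : List Bool => (6 + 3 * kap u) ::
      (QU_pre u ++ (i :: idxQ (kap u)) ++
        (1 :: List.replicate (blen u ^ c) (6 + 3 * kap u)))) :=
    NPC.Poly.cons QU_n (NPC.Poly.append (NPC.Poly.append QU_preP
      (NPC.Poly.cons (NPC.Poly.const i) QU_idxP)) (NPC.Poly.cons (NPC.Poly.const 1) (QUg_pad c)))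
  exact h

theorem QUg_orc1P (c : ℕ) : NPC.Poly (QUg_orc1 c) := QC_gate true (QUg_qP c 0) 2

theorem QUg_orc2P (c : ℕ) : NPC.Poly (QUg_orc2 c) := QC_gate true (QUg_qP c 1) 2

theorem QUg_AP (c : ℕ) : NPC.Poly (QUg_AG c) := by
  have h : NPC.Poly (fun u : List Bool => (idxQ (kap u)).map had ++
      QUg_orc1 c u :: (midQ (kap u)).map had ++ QUg_orc2 c u :: (idxQ (kap u)).map had) :=
    NPC.Poly.append (NPC.Poly.append (QC_had QU_idxP)
      (NPC.Poly.cons (QUg_orc1P c) (QC_had QU_midP)))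
      (NPC.Poly.cons (QUg_orc2P c) (QC_had QU_idxP))
  exact h

theorem QUg_AtP (c : ℕ) : NPC.Poly (QUg_AtG c) := by
  have h : NPC.Poly (fun u : List Bool => (idxQ (kap u)).map had ++
      QUg_orc2 c u :: (midQ (kap u)).map had ++ QUg_orc1 c u :: (idxQ (kap u)).map had) :=
    NPC.Poly.append (NPC.Poly.append (QC_had QU_idxP)
      (NPC.Poly.cons (QUg_orc2P c) (QC_had QU_midP)))
      (NPC.Poly.cons (QUg_orc1P c) (QC_had QU_idxP))
  exact h

theorem QUg_circP (c : ℕ) : NPC.Poly (QUg_circ c) := by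
  have h1 : UPoly (fun u : List Bool => 6 + 3 * kap u) :=
    UPoly.add (UPoly.const 6) (UPoly.mul (UPoly.const 3) QU_kap)
  have hr : NPC.Poly (fun u : List Bool => Pool.Agent.H516R2.EQP.refl (kap u)) := QU_lift QC_refl
  have hf : NPC.Poly (fun u : List Bool => fin (kap u)) := QU_lift QC_fin
  have hp : NPC.Poly (fun u : List Bool => prepG (kap u)) := QU_lift QC_prep
  have h : NPC.Poly (fun u : List Bool => ((List.replicate (6 + 3 * kap u) () : List Unit),
      prepG (kap u) ++ QUg_AG c u ++ Pool.Agent.H516R2.EQP.refl (kap u) :: QUg_AtG c u ++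
        Pool.Agent.H516R2.EQP.refl (kap u) :: QUg_AG c u ++ [fin (kap u)])) := by
    refine NPC.Poly.pair h1 ?_
    exact NPC.Poly.append (NPC.Poly.append (NPC.Poly.append (NPC.Poly.append hp (QUg_AP c))
      (NPC.Poly.cons hr (QUg_AtP c))) (NPC.Poly.cons hr (QUg_AP c)))
      (NPC.Poly.cons hf (NPC.Poly.const []))
  exact h

/-! ### number of questions -/

theorem QUg_cnt_A (c : ℕ) (u : List Bool) : QC_cnt (QUg_AG c u) = 2 := by
  unfold QUg_AG QUg_orc1 QUg_orc2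
  rw [QC_cnt_append, QC_cnt_append, QC_cnt_true, QC_cnt_true, QC_cnt_had, QC_cnt_had]

theorem QUg_cnt_At (c : ℕ) (u : List Bool) : QC_cnt (QUg_AtG c u) = 2 := by
  unfold QUg_AtG QUg_orc1 QUg_orc2
  rw [QC_cnt_append, QC_cnt_append, QC_cnt_true, QC_cnt_true, QC_cnt_had, QC_cnt_had]

theorem QUg_queries (c : ℕ) (u : List Bool) : queries (QUg_circ c u) = 6 := by
  show QC_cnt (prepG (kap u) ++ QUg_AG c u ++ Pool.Agent.H516R2.EQP.refl (kap u) :: QUg_AtG c u ++
    Pool.Agent.H516R2.EQP.refl (kap u) :: QUg_AG c u ++ [fin (kap u)]) = 6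
  unfold Pool.Agent.H516R2.EQP.refl fin
  rw [QC_cnt_append, QC_cnt_append, QC_cnt_append, QC_cnt_append, QC_cnt_false, QC_cnt_false,
    QC_cnt_false, QC_cnt_prep, QUg_cnt_A, QUg_cnt_At, QC_cnt_nil]

theorem QUg (hqf : St_QF) : St_QUg := by
  intro c
  refine ⟨QUg_circ c, polyTime_bits (QUg_circP c), fun u => ⟨(QUg_queries c u).le,
    fun A B hAB => ?_⟩⟩
  rw [QUg_acc hAB, hqf]
  rfl

end Pool.Agent.H516R2.EQP4
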