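import Pool.Agent.H516R2.EQP4.Props
import Pool.Agent.H620R2.Gauge.Q

/-!
# Task SPg: there are few coded strings (helper747)
-/

set_option autoImplicit false

namespace Pool.Agent.H516R2.EQP4

open Pool.Agent.NPC Pool.Agent.H620R2.Gauge Finset H568R2 Pool.Agent.H676 Pool.Agent.H516R2.EQP
  Pool.Agent.H516R2.EQP2 Pool.Agent.H516R2.EQP3 Pool.Agent.H591R3.PHG

theorem SPg_len (K : ℕ) (v : List Bool) :
    (padc K v).length = v.length + v.length ^ K + 2 := by
  unfold padc
  rw [List.length_cons, List.length_append, List.length_cons, List.length_replicate]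
  omega

theorem SPg_inj {K : ℕ} {v v' : List Bool} (h : padc K v = padc K v') : v = v' := by
  have h1 : v.length = v'.length := by
    have h2 := congrArg List.length h
    rw [SPg_len, SPg_len] at h2
    rcases lt_trichotomy v.length v'.length with h3 | h3 | h3
    · have := Nat.pow_le_pow_left h3.le K
      omega
    · exact h3
    · have := Nat.pow_le_pow_left h3.le K
      omega
  unfold padc at h
  exact (List.append_inj (List.cons.inj h).2 h1).1

open Classical in
theorem SPg_sparse {K : ℕ} (N J : ℕ) (hJ : Nat.log 2 N < (J + 1) ^ K) :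
    ((Finset.range N).filter (fun i => ∃ v, str i = padc K v)).card ≤ 2 ^ (J + 1) := by
  let P : ℕ → Prop := fun i => ∃ v, str i = padc K v
  let w : ℕ → List Bool := fun i => if h : P i then h.choose else []
  have hw : ∀ i, (h : P i) → w i = h.choose := fun i h => dif_pos h
  have hcode : ∀ i, (h : P i) → str i = padc K (w i) := fun i h => by
    rw [hw i h]
    exact h.choose_spec
  rw [← Finset.card_range (2 ^ (J + 1))]
  apply Finset.card_le_card_of_injOn (fun i => idx (w i))
  · intro i hi
    rw [Finset.mem_coe, Finset.mem_filter, Finset.mem_range] at hi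
    have hP : P i := hi.2
    rw [Finset.mem_coe, Finset.mem_range]
    have h1 := hcode i hP
    have h2 := SPg_len K (w i)
    rw [← h1, length_str] at h2
    have h4 : Nat.log 2 (i + 1) ≤ Nat.log 2 N := Nat.log_mono_right (by omega)
    have h5 : (w i).length ^ K < (J + 1) ^ K := by omega
    have h6 : (w i).length < J + 1 := lt_of_pow_lt_pow_left₀ K (by omega) h5
    have h8 := idx_lt (w i)
    have h9 : 2 ^ ((w i).length + 1) ≤ 2 ^ (J + 1) := Nat.pow_le_pow_right (by norm_num) (by omega)
    show idx (w i) < 2 ^ (J + 1)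
    omega
  · intro i hi j hj hij
    rw [Finset.mem_coe, Finset.mem_filter] at hi hj
    have h1 : w i = w j := by
      have := congrArg str hij
      simpa [str_idx] using this
    apply str_injective
    rw [hcode i hi.2, hcode j hj.2, h1]

open Classical in
theorem SPg : St_SPg := by
  intro ε hε
  refine ⟨⌊1 / ε⌋₊ + 1, fun K hK0' R hR => ?_⟩
  have hK : 1 < ε * K := by
    have h1 : 1 / ε < (⌊1 / ε⌋₊ : ℝ) + 1 := Nat.lt_floor_add_one _
    have h2 : ((⌊1 / ε⌋₊ + 1 : ℕ) : ℝ) ≤ K := by exact_mod_cast hK0'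
    push_cast at h2
    have h3 : 1 / ε < K := lt_of_lt_of_le h1 h2
    rw [div_lt_iff₀ hε] at h3
    linarith
  have hK1 : 1 ≤ K := by omega
  have hK0 : (0 : ℝ) < K := by exact_mod_cast hK1
  have hpos : 0 < ε - 1 / K := by
    have : 1 / (K : ℝ) < ε := by
      rw [div_lt_iff₀ hK0]; exact hK
    linarith
  have ht : Filter.Tendsto (fun N : ℕ => (Real.logb 2 N) ^ (ε - 1 / K)) Filter.atTop
      Filter.atTop :=
    (tendsto_rpow_atTop hpos).comp
      ((Real.tendsto_logb_atTop (by norm_num)).comp tendsto_natCast_atTop_atTop)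
  filter_upwards [ht.eventually_ge_atTop 3, Filter.eventually_ge_atTop 2] with N h2 hN
  set L := Real.logb 2 N with hL
  have hN' : (2 : ℝ) ≤ N := by exact_mod_cast hN
  have hL1 : 1 ≤ L := by
    rw [hL, Real.le_logb_iff_rpow_le (by norm_num) (by linarith)]
    simpa using hN'
  have hL0 : 0 < L := by linarith
  set J := Nat.floor (L ^ (1 / (K : ℝ))) with hJdef
  have hJle : (J : ℝ) ≤ L ^ (1 / (K : ℝ)) := Nat.floor_le (Real.rpow_nonneg hL0.le _)
  have hJ : Nat.log 2 N < (J + 1) ^ K := by
    have h3 : L ^ (1 / (K : ℝ)) < (J : ℝ) + 1 := Nat.lt_floor_add_one _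
    have h4 : L < ((J : ℝ) + 1) ^ K := by
      have h5 : (L ^ (1 / (K : ℝ))) ^ K < ((J : ℝ) + 1) ^ K :=
        pow_lt_pow_left₀ h3 (Real.rpow_nonneg hL0.le _) (by omega)
      have h6 : (L ^ (1 / (K : ℝ))) ^ K = L := by
        rw [one_div, Real.rpow_inv_natCast_pow hL0.le (by omega)]
      rw [h6] at h5
      exact h5
    have h7 : (Nat.log 2 N : ℝ) ≤ L := by
      rw [hL, Real.le_logb_iff_rpow_le (by norm_num) (by linarith), Real.rpow_natCast]
      have := Nat.pow_log_le_self 2 (show N ≠ 0 by omega)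
      exact_mod_cast this
    have h8 : (Nat.log 2 N : ℝ) < ((J : ℝ) + 1) ^ K := lt_of_le_of_lt h7 h4
    exact_mod_cast h8
  have h9 := sparse_nat hK1 R hR N J hJ
  have h9' := SPg_sparse (K := K) N J hJ
  have hcard : ((Finset.range N).filter (fun i => str i ∈ Tcd K R)).card ≤ 2 ^ (J + 2) := by
    have e1 : (Finset.range N).filter (fun i => str i ∈ Tcd K R) ⊆
        (Finset.range N).filter (fun i => ∃ e x, str i = code R e x) ∪
          (Finset.range N).filter (fun i => ∃ v, str i = padc K v) := by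
      intro i hi
      rw [Finset.mem_filter] at hi
      rw [Finset.mem_union, Finset.mem_filter, Finset.mem_filter]
      rcases hi.2 with h | h
      · exact Or.inl ⟨hi.1, h⟩
      · exact Or.inr ⟨hi.1, h⟩
    refine (Finset.card_le_card e1).trans ((Finset.card_union_le _ _).trans ?_)
    have : 2 ^ (J + 2) = 2 ^ (J + 1) + 2 ^ (J + 1) := by ring
    omega
  have h10 : (J : ℝ) + 2 ≤ L ^ ε := by
    have h11 : 1 ≤ L ^ (1 / (K : ℝ)) := Real.one_le_rpow hL1 (by positivity)
    have h12 : L ^ ε = L ^ (1 / (K : ℝ)) * L ^ (ε - 1 / K) := by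
      rw [← Real.rpow_add hL0]; congr 1; ring
    rw [h12]
    nlinarith
  calc (((Finset.range N).filter (fun i => str i ∈ Tcd K R)).card : ℝ)
      ≤ ((2 ^ (J + 2) : ℕ) : ℝ) := by exact_mod_cast hcard
    _ = (2 : ℝ) ^ ((J : ℝ) + 2) := by
        push_cast
        rw [← Real.rpow_natCast]
        push_cast
        rfl
    _ ≤ 2 ^ L ^ ε := Real.rpow_le_rpow_of_exponent_le (by norm_num) h10

end Pool.Agent.H516R2.EQP4
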