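import Pool.Agent.H516R2.EQP4.Props
import Pool.Agent.H516R2.EQP3.YS

/-!
# Task YW: the bound, averaging over the leaves
-/

set_option autoImplicit false

namespace Pool.Agent.H516R2.EQP4

open Pool.Agent.NPC Pool.Agent.H620R2.Gauge Finset H568R2 Pool.Agent.H676 Pool.Agent.H516R2.EQP
  Pool.Agent.H516R2.EQP2 Pool.Agent.H516R2.EQP3 Pool.Agent.H591R3.PHG

/-- strings up to some length decide -/
theorem YW_loc (hll : St_LL) (M : Alg) (p : Polynomial ℕ) (k X : ℕ) :
    ∃ N' : ℕ, ∀ N₁ ≥ N', LcX M p k X N₁ := by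
  obtain ⟨h1, h2⟩ := hll
  choose f hf using h1 k
  have h2' : ∀ x : List Bool, ∃ N : ℕ, ∀ A A' : Oracle,
      (∀ z : List Bool, z.length ≤ N → A z = A' z) →
      QO M (p.eval x.length) k true x A = QO M (p.eval x.length) k true x A' :=
    fun x => h2 M (p.eval x.length) k true x
  choose g hg using h2'
  have hfin : {x : List Bool | x.length ≤ X}.Finite := List.finite_length_le Bool X
  obtain ⟨B, hB⟩ := (hfin.image (fun x => f x + g x)).bddAbove
  refine ⟨B, fun N₁ hN₁ x hx A A' hA => ?_⟩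
  have h3 : f x + g x ≤ B := hB ⟨x, hx, rfl⟩
  exact ⟨hf x A A' (fun z hz => hA z (by omega)), hg x A A' (fun z hz => hA z (by omega))⟩

/-- leaves are not padded -/
theorem YW_pad {w : List Bool} {c : ℕ} (h : ∃ r, w = true :: r) : ∀ v, w ≠ padc c v := by
  rintro v rfl
  obtain ⟨r, hr⟩ := h
  unfold padc at hr
  exact Bool.false_ne_true (List.cons.inj hr).1

theorem YW (hp : St_PU) (hh : St_HY) (hc : St_CL) (hb : St_BL) (hv : St_VL) (hml : St_ML)
    (hlf : St_LF) (hlh : St_LH) (hqd : St_QDg) (hgy : St_GYg) (hny : St_NYg) (hll : St_LL)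
    (hha : St_HA) : St_YW := by
  intro c hid C hHL M p k N δ hδ
  obtain ⟨hha1, hha2, hha3, hha4, hha5⟩ := hha
  obtain ⟨P, hP⟩ := hgy M k (p.comp (Lx k)) (Lx k)
  obtain ⟨m₀, hm₀⟩ := hh k P
  obtain ⟨hp1, hp2, hp3, hp4, hp5, hp6, hp7⟩ := hp
  obtain ⟨T, hT⟩ : ∃ T : Polynomial ℕ, T = Lx k + Polynomial.C k * (2 * p.comp (Lx k) + 1) :=
    ⟨_, rfl⟩
  have hTe : ∀ n : ℕ, T.eval n = (Lx k).eval n + k * (2 * (p.comp (Lx k)).eval n + 1) := by
    intro n
    rw [hT]
    simp
  obtain ⟨n₀, hn₀⟩ := hny (M.p.comp T) T k (3 * δ / 4) (by positivity)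
  obtain ⟨n, hn⟩ : ∃ n : ℕ, n = n₀ + N + m₀ := ⟨_, rfl⟩
  obtain ⟨h5n, hTn, hB1, hB2⟩ := hn₀ n (by omega)
  obtain ⟨v, hv8⟩ : ∃ v : ℕ, v = n / 8 := ⟨_, rfl⟩
  rw [← hv8] at hTn hB1 hB2
  obtain ⟨as, hask, has, hmain⟩ := hml n v k h5n (by omega)
  have hK1 : 2 ^ (v + 11) ≤ 2 ^ (n + 11) := Nat.pow_le_pow_right (by norm_num) (by omega)
  obtain ⟨hlf1, hlf2, hlf3, hlf4, hlf5⟩ :=
    hlf as n k (2 ^ (v + 11)) hask (fun a ha => (has a ha).1) hK1
  have hlh' : ∀ g, ∃ r, lf as n (2 ^ (v + 11)) g = true :: r :=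
    hlh as n k (2 ^ (v + 11)) hask (fun a ha => (has a ha).1)
  obtain ⟨l, hl⟩ : ∃ l : ℕ, l = 2 * as.sum + as.length + 2 * (8 * n) + 1 + (n + 11) := ⟨_, rfl⟩
  have hlen : ∀ j, (inp as n (2 ^ (v + 11)) j).length = l := by
    intro j
    rw [hl]
    exact inp_len _ _ _ j
  have hlL : l ≤ (Lx k).eval n := by
    rw [hl]
    exact inp_len_le hask (fun a ha => (has a ha).2)
  obtain ⟨m, hm⟩ : ∃ m : ℕ, m = p.eval l := ⟨_, rfl⟩
  have hmL : m ≤ (p.comp (Lx k)).eval n := by
    rw [hm, Polynomial.eval_comp]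
    exact YS_mono p hlL
  obtain ⟨N', hN'⟩ := YW_loc hll M p k ((Lx k).eval n)
  obtain ⟨N₁, hN₁, hN₁', hN₁''⟩ : ∃ N₁ : ℕ, N ≤ N₁ ∧
      (∀ g, (lf as n (2 ^ (v + 11)) g).length ≤ N₁) ∧ N' ≤ N₁ := by
    refine ⟨N + N' + ∑ g, (lf as n (2 ^ (v + 11)) g).length, by omega, fun g => ?_, by omega⟩
    have := Finset.single_le_sum (f := fun g => (lf as n (2 ^ (v + 11)) g).length)
      (fun _ _ => Nat.zero_le _) (Finset.mem_univ g)
    omega
  refine ⟨as, n, 2 ^ (v + 11), (Lx k).eval n, N₁, hask, fun a ha => (has a ha).1, hK1, by omega,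
    hN₁, hN₁', hN' N₁ hN₁'', ?_⟩
  intro B₀ R
  obtain ⟨us, hnd, hpw, hus, hsum⟩ := hb C n N₁
  have hblen : ∀ u : List Bool, u.length < blen u := by
    intro u
    unfold blen
    omega
  have hovw : ∀ (z : Idx (Fin (2 ^ (v + 11))) (8 * n :: pw as) → Bool) (w : List Bool),
      (∀ g, lf as n (2 ^ (v + 11)) g ≠ w) → ovw as n (2 ^ (v + 11)) z R w = R w := by
    intro z w hw
    unfold ovw
    exact dif_neg (fun ⟨g, hg⟩ => hw g hg)
  classical
  by_cases hex : ∃ z₀, EvR c hid C M p k B₀ N ((Lx k).eval n) N₁ (ovw as n (2 ^ (v + 11)) z₀ R)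
  swap
  · have h0 : Ex (ber (1 / 2)) (fun z : Idx (Fin (2 ^ (v + 11))) (8 * n :: pw as) → Bool =>
        if EvR c hid C M p k B₀ N ((Lx k).eval n) N₁ (ovw as n (2 ^ (v + 11)) z R)
          then (1 : ℝ) else 0) ≤
        Ex (ber (1 / 2)) (fun _ : Idx (Fin (2 ^ (v + 11))) (8 * n :: pw as) → Bool => (0 : ℝ)) := by
      apply Ex_mono (ber_nonneg_m (by norm_num) (by norm_num))
      intro z
      rw [if_neg (fun h => hex ⟨z, h⟩)]
    rw [Ex_const (I := Idx (Fin (2 ^ (v + 11))) (8 * n :: pw as)) (ber_sum_m (1 / 2)) 0] at h0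
    have h1 : Ex (ber (1 / 2)) (fun z : Idx (Fin (2 ^ (v + 11))) (8 * n :: pw as) → Bool =>
        if EvR c hid C M p k B₀ N ((Lx k).eval n) N₁ (ovw as n (2 ^ (v + 11)) z R)
          then (1 : ℝ) else 0) ≤ δ := h0.trans hδ.le
    convert h1
  obtain ⟨z₀, hz₀⟩ := hex
  obtain ⟨B₁, hB₁1, hB₁2⟩ := hc (hat c (ovw as n (2 ^ (v + 11)) z₀ R)) hid C (hha4 _ _) hHL B₀ N
    hz₀.1
  have key : ∀ z : Idx (Fin (2 ^ (v + 11))) (8 * n :: pw as) → Bool,
      EvR c hid C M p k B₀ N ((Lx k).eval n) N₁ (ovw as n (2 ^ (v + 11)) z R) →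
      ∀ j : Fin (2 ^ (v + 11)), 1 - (1 / 2 : ℝ) ^ n ≤ (∑ ω : FT us,
        if (QO M m k true (inp as n (2 ^ (v + 11)) j)
          (hat c (ovw as n (2 ^ (v + 11)) z R) (fil us ω B₁)) ^^
          Tr (8 * n :: pw as) z j) then (1 : ℝ) else 0) / (Fintype.card (FT us) : ℝ) := by
    intro z hz j
    refine le_trans (by linarith) (hm₀ us hnd ?_
      (fun u A => hid u (hat c (ovw as n (2 ^ (v + 11)) z R) A))
      (fun A => QO M m k true (inp as n (2 ^ (v + 11)) j)
        (hat c (ovw as n (2 ^ (v + 11)) z R) A) ^^ Tr (8 * n :: pw as) z j) ?_ B₁ ?_)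
    · intro u hu
      have h3 := ((hus u).1 hu).1
      have h4 : n ≤ kap u := by unfold kap mu; omega
      refine ⟨by unfold mu; omega, (hP (hat c R) (hha5 _ _) u (inp as n (2 ^ (v + 11)) j) m
        ?_ ?_).1⟩
      · rw [hlen j]
        exact hlL.trans (YS_mono _ h4)
      · exact hmL.trans (YS_mono _ h4)
    · intro u hu A
      have h3 := ((hus u).1 hu).1
      have h4 : n ≤ kap u := by unfold kap mu; omega
      refine (hP (hat c (ovw as n (2 ^ (v + 11)) z R)) (hha5 _ _) u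
        (inp as n (2 ^ (v + 11)) j) m ?_ ?_).2 A true (Tr (8 * n :: pw as) z j)
      · rw [hlen j]
        exact hlL.trans (YS_mono _ h4)
      · exact hmL.trans (YS_mono _ h4)
    · refine hv (hat c (ovw as n (2 ^ (v + 11)) z R)) hid C (hha4 _ _) hHL us n N₁ hnd hpw hus _
        B₁ ?_ ?_
      · intro u hu hul
        refine ⟨(hB₁2 u).1, fun h => ?_⟩
        have hle : u.length ≤ n := by
          by_contra h5
          exact hu ((hus u).2 ⟨by omega, hul, h⟩)
        have hid2 : hid u (hat c (ovw as n (2 ^ (v + 11)) z R) B₁) =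
            hid u (hat c (ovw as n (2 ^ (v + 11)) z₀ R) B₁) := by
          apply hHL
          intro w hw
          by_cases hwp : ∃ v', w = padc c v'
          · obtain ⟨v', rfl⟩ := hwp
            rw [hha2, hha2]
          · have hwp' : ∀ v', w ≠ padc c v' := fun v' h' => hwp ⟨v', h'⟩
            rw [hha3 _ _ _ _ hwp', hha3 _ _ _ _ hwp', hovw, hovw]
            · rintro g rfl
              have := hlf3 g
              omega
            · rintro g rfl
              have := hlf3 g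
              omega
        rw [hid2]
        exact (hB₁2 u).2 h
      · intro B' hB' hcond
        have h1 := hz.2 B' hcond (by
          intro w hw
          rw [hB' w, hB₁1 w (Or.inl hw)]
          intro u hu hin
          have h2 : w.length = blen u := hin.2
          have h3 := ((hus u).1 hu).1
          have := hblen u
          omega) (inp as n (2 ^ (v + 11)) j) (by rw [hlen j]; exact hlL)
        have h2 := hlf5 (hat c (ovw as n (2 ^ (v + 11)) z R) B') z (by
          intro g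
          rw [hha3 _ _ _ _ (YW_pad (hlh' g))]
          exact hlf4 z R g) j
        rw [hlen j, ← hm] at h1
        rw [h2] at h1
        show (QO M m k true (inp as n (2 ^ (v + 11)) j)
          (hat c (ovw as n (2 ^ (v + 11)) z R) B') ^^ Tr (8 * n :: pw as) z j) = true
        cases hTr : Tr (8 * n :: pw as) z j with
        | false =>
          rw [h1.1 hTr]
          rfl
        | true =>
          have h4 : ¬ QO M m k true (inp as n (2 ^ (v + 11)) j)
              (hat c (ovw as n (2 ^ (v + 11)) z R) B') = true := by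
            intro h5
            rw [h1.2 h5] at hTr
            exact Bool.false_ne_true hTr
          rw [Bool.not_eq_true] at h4
          rw [h4]
          rfl
  have hcard : (0 : ℝ) < (Fintype.card (FT us) : ℝ) := by
    exact_mod_cast Fintype.card_pos
  have h34 : ∀ z : Idx (Fin (2 ^ (v + 11))) (8 * n :: pw as) → Bool,
      (3 / 4 : ℝ) * (if EvR c hid C M p k B₀ N ((Lx k).eval n) N₁
        (ovw as n (2 ^ (v + 11)) z R) then (1 : ℝ) else 0) ≤
      (1 / (Fintype.card (FT us) : ℝ)) * ∑ ω : FT us,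
      if (∀ j, (QO M m k true (inp as n (2 ^ (v + 11)) j)
        (hat c (ovw as n (2 ^ (v + 11)) z R) (fil us ω B₁)) ^^ Tr (8 * n :: pw as) z j) = true)
        then (1 : ℝ) else 0 := by
    intro z
    by_cases hz : EvR c hid C M p k B₀ N ((Lx k).eval n) N₁ (ovw as n (2 ^ (v + 11)) z R)
    · rw [if_pos hz]
      have h1 := YS_union (fun (j : Fin (2 ^ (v + 11))) (ω : FT us) =>
        (QO M m k true (inp as n (2 ^ (v + 11)) j)
          (hat c (ovw as n (2 ^ (v + 11)) z R) (fil us ω B₁)) ^^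
          Tr (8 * n :: pw as) z j)) ((1 / 2 : ℝ) ^ n) (key z hz)
      have h2 : (3 / 4 : ℝ) ≤ (∑ ω : FT us,
          if (∀ j, (QO M m k true (inp as n (2 ^ (v + 11)) j)
            (hat c (ovw as n (2 ^ (v + 11)) z R) (fil us ω B₁)) ^^
              Tr (8 * n :: pw as) z j) = true)
          then (1 : ℝ) else 0) / (Fintype.card (FT us) : ℝ) := by
        refine le_trans ?_ h1
        push_cast
        linarith
      rw [div_eq_mul_one_div _ (Fintype.card (FT us) : ℝ), mul_comm] at h2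
      rw [mul_one]
      exact h2
    · rw [if_neg hz, mul_zero]
      refine mul_nonneg (by positivity) (Finset.sum_nonneg fun ω _ => ?_)
      split_ifs <;> norm_num
  have hE := Ex_mono (I := Idx (Fin (2 ^ (v + 11))) (8 * n :: pw as))
    (ber_nonneg_m (t := 1 / 2) (by norm_num) (by norm_num)) h34
  rw [Ex_smul, Ex_smul, Ex_sum] at hE
  have hω : ∀ ω ∈ (univ : Finset (FT us)), Ex (ber (1 / 2))
      (fun z : Idx (Fin (2 ^ (v + 11))) (8 * n :: pw as) → Bool =>
      if (∀ j, (QO M m k true (inp as n (2 ^ (v + 11)) j)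
        (hat c (ovw as n (2 ^ (v + 11)) z R) (fil us ω B₁)) ^^ Tr (8 * n :: pw as) z j) = true)
        then (1 : ℝ) else 0) ≤ 3 * δ / 4 := by
    intro ω _
    obtain ⟨F, hF⟩ : ∃ F : List Bool → (Idx (Fin (2 ^ (v + 11))) (8 * n :: pw as) → Bool) → Bool,
      F = fun y z => decide (M.out (hat c (ovw as n (2 ^ (v + 11)) z R) (fil us ω B₁)) y =
        some [true]) := ⟨_, rfl⟩
    have hTm : (Lx k).eval n + k * (2 * m + 1) ≤ T.eval n := by
      rw [hTe]
      exact Nat.add_le_add_left (Nat.mul_le_mul_left _ (by omega)) _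
    have hD : ∀ y : List Bool, y.length ≤ (Lx k).eval n + k * (2 * m + 1) →
        DTr (2 ^ (2 * v)) (F y) := by
      intro y hy
      rw [hF]
      refine DTr.mono (hqd M as n (2 ^ (v + 11)) hlf1 hlh' c (fil us ω B₁) R y) ?_
      refine le_trans (YS_mono M.p (hy.trans hTm)) ?_
      rw [← Polynomial.eval_comp]
      exact hTn
    have h1 := hmain m ((Lx k).eval n) F hD (inp as n (2 ^ (v + 11)))
      (fun j => by rw [hlen j]; exact hlL) true
    have h2 : (k : ℝ) * (2 ^ ((Lx k).eval n + k * (2 * m + 1) + 2) *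
        (1 / 2) ^ (2 ^ (2 * v) + 1)) ≤
        k * (2 ^ (T.eval n + 2) * (1 / 2) ^ (2 ^ (2 * v) + 1)) := by
      apply mul_le_mul_of_nonneg_left _ (Nat.cast_nonneg k)
      apply mul_le_mul_of_nonneg_right _ (by positivity)
      apply pow_le_pow_right₀ (by norm_num)
      omega
    refine le_trans ?_ (h1.trans (by linarith))
    unfold Ms
    apply Ex_mono (ber_nonneg_m (by norm_num) (by norm_num))
    intro z
    have hQ : ∀ j, QO M m k true (inp as n (2 ^ (v + 11)) j)
        (hat c (ovw as n (2 ^ (v + 11)) z R) (fil us ω B₁)) =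
        QF m F k true (inp as n (2 ^ (v + 11)) j) z := by
      intro j
      rw [hF]
      exact QF_comp (I := List Bool) m (fun y' A' => decide (M.out A' y' = some [true]))
        (fun z => hat c (ovw as n (2 ^ (v + 11)) z R) (fil us ω B₁)) k true _ z
    by_cases hall : ∀ j, (QO M m k true (inp as n (2 ^ (v + 11)) j)
        (hat c (ovw as n (2 ^ (v + 11)) z R) (fil us ω B₁)) ^^ Tr (8 * n :: pw as) z j) = true
    · rw [if_pos hall, if_pos]
      intro j
      have h3 := hall j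
      rw [hQ j] at h3
      have h4 : val (fun _ => none) z = z := rfl
      rw [h4]
      intro h5
      have h5' : QF m F k true (inp as n (2 ^ (v + 11)) j) z = Tr (8 * n :: pw as) z j := h5
      rw [h5', Bool.xor_self] at h3
      exact Bool.false_ne_true h3
    · rw [if_neg hall]
      split_ifs <;> norm_num
  have h6 := Finset.sum_le_sum hω
  rw [Finset.sum_const, Finset.card_univ, nsmul_eq_mul] at h6
  have h7 : (1 / (Fintype.card (FT us) : ℝ)) * ((Fintype.card (FT us) : ℝ) * (3 * δ / 4)) =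
      3 * δ / 4 := by
    field_simp
  have h8 := mul_le_mul_of_nonneg_left h6 (by positivity : (0 : ℝ) ≤ 1 / (Fintype.card (FT us) : ℝ))
  rw [h7] at h8
  have h9 : Ex (ber (1 / 2)) (fun z : Idx (Fin (2 ^ (v + 11))) (8 * n :: pw as) → Bool =>
        if EvR c hid C M p k B₀ N ((Lx k).eval n) N₁ (ovw as n (2 ^ (v + 11)) z R)
          then (1 : ℝ) else 0) ≤ δ := by
    linarith
  convert h9

end Pool.Agent.H516R2.EQP4
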