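import Pool.Agent.H516R2.EQP4.Props

/-!
# Task YZg: quantified algorithms relative to a coded oracle fail on special blocks
-/

set_option autoImplicit false

namespace Pool.Agent.H516R2.EQP4

open Pool.Agent.NPC Pool.Agent.H620R2.Gauge Finset H568R2 Pool.Agent.H676 Pool.Agent.H516R2.EQP
  Pool.Agent.H516R2.EQP2 Pool.Agent.H516R2.EQP3 Pool.Agent.H591R3.PHG

theorem YZg_VG_congr (hid hid' : List Bool → Oracle → Bool) (G : Oracle → Bool) :
    ∀ (us : List (List Bool)) (B : Oracle), (∀ u ∈ us, ∀ A, hid u A = hid' u A) →
      VG hid G us B → VG hid' G us B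
  | [], _, _, h => h
  | u :: us, B, hu, h => by
    intro a ha
    apply YZg_VG_congr hid hid' G us _ (fun v hv => hu v (List.mem_cons_of_mem _ hv))
    apply h a
    rw [hu u List.mem_cons_self]
    exact ha

theorem YZg_mono (p : Polynomial ℕ) {m n : ℕ} (h : m ≤ n) : p.eval m ≤ p.eval n := by
  induction p using Polynomial.induction_on' with
  | add p q hp hq =>
    rw [Polynomial.eval_add, Polynomial.eval_add]
    exact add_le_add hp hq
  | monomial k a =>
    rw [Polynomial.eval_monomial, Polynomial.eval_monomial]
    exact Nat.mul_le_mul_left _ (Nat.pow_le_pow_left h _)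

theorem YZg (hp : St_PU) (hh : St_HY) (hc : St_CL) (hb : St_BL) (hv : St_VL) (hgy : St_GYg)
    (hll : St_LL) (hha : St_HA) : St_YZg := by
  intro cc R hid C hHL hC M p k B N hVal
  by_contra hno
  obtain ⟨Φ, hΦ⟩ : ∃ Φ : Oracle → Oracle, Φ = hat cc R := ⟨_, rfl⟩
  have hL : Loc Φ := by
    rw [hΦ]
    exact hha.2.2.2.1 cc R
  have hLit : Lit Φ := by
    rw [hΦ]
    exact hha.2.2.2.2 cc R
  rw [← hΦ] at hVal
  have hno' : ∀ (B' : Oracle) (x : List Bool), Val Φ hid C B' →
      (∀ z : List Bool, z.length ≤ N → B' z = B z) →
      (QO M (p.eval x.length) k true x (Φ B') = true ↔ al (false :: false :: x) B' = 1 / 2) := by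
    intro B' x h1 h2
    by_contra h3
    rw [hΦ] at h1 h3
    exact hno ⟨B', x, h1, h2, h3⟩
  obtain ⟨P, hP0⟩ := hgy M k p Polynomial.X
  have hP := hP0 Φ hLit
  obtain ⟨m₀, hm₀⟩ := hh k P
  obtain ⟨hp1, hp2, hp3, hp4, hp5, hp6, hp7⟩ := hp
  obtain ⟨n, hn⟩ : ∃ n : ℕ, n = N + m₀ + 2 := ⟨_, rfl⟩
  obtain ⟨x, hx⟩ : ∃ x : List Bool, x = List.replicate n true := ⟨_, rfl⟩
  have hxl : x.length = n := by rw [hx, List.length_replicate]
  obtain ⟨u₀, hu₀⟩ : ∃ u₀ : List Bool, u₀ = false :: false :: x := ⟨_, rfl⟩
  have hu₀l : u₀.length = n + 2 := by rw [hu₀]; simp [hxl]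
  have hCu₀ : C u₀ = false := by rw [hu₀]; exact hC x
  have hblen : ∀ u : List Bool, u.length < blen u := by
    intro u; unfold blen; omega
  obtain ⟨qb, hqb⟩ := hll.2 M (p.eval x.length) k true x
  obtain ⟨N₁, hN₁⟩ : ∃ N₁ : ℕ, N₁ = N + blen u₀ + qb := ⟨_, rfl⟩
  have hout : ∀ A A' : Oracle, (∀ z : List Bool, z.length ≤ N₁ → A z = A' z) →
      QO M (p.eval x.length) k true x (Φ A) = QO M (p.eval x.length) k true x (Φ A') := by
    intro A A' hAA
    apply hqb
    intro z hz
    apply hL
    intro z' hz'
    apply hAA
    omega
  obtain ⟨Q, hQ⟩ : ∃ Q : Oracle → Bool, ∀ A, Q A = QO M (p.eval x.length) k true x (Φ A) :=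
    ⟨fun A => QO M (p.eval x.length) k true x (Φ A), fun _ => rfl⟩
  have hPu : ∀ u : List Bool, n ≤ kap u → 1 ≤ P.eval (kap u) ∧ ∀ (B : Oracle) (c : Bool),
      Goods (kap u) (P.eval (kap u)) k (fun a => Q (put u a B) ^^ c) := by
    intro u hu
    simp only [hQ]
    have h : 1 ≤ P.eval (kap u) ∧ ∀ (B : Oracle) (b c : Bool),
      Goods (kap u) (P.eval (kap u)) k
        (fun a => QO M (p.eval x.length) k b x (Φ (put u a B)) ^^ c) := by
      refine hP u x (p.eval x.length) ?_ ?_
      · rw [Polynomial.eval_X, hxl]
        exact hu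
      · rw [hxl]
        exact YZg_mono p hu
    exact ⟨h.1, fun B c => h.2 B true c⟩
  obtain ⟨us, hnd, hpw, hus, hsum⟩ := hb C n N₁
  have hu₀us : u₀ ∉ us := by
    intro h
    have h1 := ((hus u₀).1 h).2.2
    rw [hCu₀] at h1
    exact Bool.false_ne_true h1
  -- the claim
  have claim : ∀ A : Oracle, (∀ z, (∀ u ∈ u₀ :: us, ¬ InB u z) → A z = B z) →
      (∀ u, blen u ≤ N₁ → Cond Φ hid C u A) →
      (Q A = true ↔ al u₀ A = 1 / 2) := by
    intro A hA hcond
    obtain ⟨A', hA'1, hA'2⟩ := hc Φ hid C hL hHL A N₁ hcond
    have h1 := hno' A' x hA'2 (by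
      intro z hz
      rw [hA'1 z (Or.inl (by omega))]
      apply hA
      intro u hu hin
      have h2 : z.length = blen u := hin.2
      rcases List.mem_cons.1 hu with h | h
      · subst h
        have := hblen u
        omega
      · have h3 := ((hus u).1 h).1
        have := hblen u
        omega)
    have h2 : Q A' = Q A := by
      rw [hQ, hQ]
      exact hout A' A (fun z hz => hA'1 z (Or.inl hz))
    have h3 : al u₀ A' = al u₀ A := by
      apply hp5
      intro z hz
      apply hA'1 z
      left
      have : z.length = blen u₀ := hz.2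
      omega
    rw [← hQ, h2, ← hu₀, h3] at h1
    exact h1
  -- the two functions
  have key : ∀ b : Bool, 1 - (((u₀ :: us).map (fun u => (1 / 2 : ℝ) ^ mu u)).sum) ≤
      (∑ ω : FT (u₀ :: us), if (Q (fil (u₀ :: us) ω B) ^^ !b)
        then (1 : ℝ) else 0) / (Fintype.card (FT (u₀ :: us)) : ℝ) := by
    intro b
    refine hm₀ (u₀ :: us) (List.nodup_cons.2 ⟨hu₀us, hnd⟩) ?_
      (fun u A => if u = u₀ then b else hid u (Φ A))
      (fun A => Q A ^^ !b) ?_ B ?_
    · intro u hu
      constructor
      · unfold mu
        rcases List.mem_cons.1 hu with h | h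
        · subst h
          omega
        · have h3 := ((hus u).1 h).1
          omega
      · refine (hPu u ?_).1
        unfold kap mu
        rcases List.mem_cons.1 hu with h | h
        · subst h
          omega
        · have h3 := ((hus u).1 h).1
          omega
    · intro u hu A
      refine (hPu u ?_).2 A (!b)
      unfold kap mu
      rcases List.mem_cons.1 hu with h | h
      · subst h
        omega
      · have h3 := ((hus u).1 h).1
        omega
    · intro a ha
      have ha' : Inst b a := by
        simpa using ha
      have hBa : ∀ z, ¬ InB u₀ z → put u₀ a B z = B z := fun z hz => hp2 u₀ z a B hz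
      have hal : al u₀ (put u₀ a B) = if b then 1 / 2 else 0 := by
        cases b with
        | true => exact (hp6 u₀ a B).1 ha'
        | false => exact (hp6 u₀ a B).2 ha'
      apply YZg_VG_congr (fun u A => hid u (Φ A)) _ _ us
      · intro u hu A
        have : u ≠ u₀ := fun h => hu₀us (h ▸ hu)
        simp only [if_neg this]
      · refine hv Φ hid C hL hHL us n N₁ hnd hpw hus _ (put u₀ a B) ?_ ?_
        · intro u hu hlen
          by_cases h0 : u = u₀
          · subst h0
            refine ⟨?_, fun h => ?_⟩
            · rw [hal]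
              cases b
              · left; simp
              · right; simp
            · rw [hCu₀] at h
              exact absurd h Bool.false_ne_true
          · have hal2 : al u (put u₀ a B) = al u B := by
              apply hp5
              intro z hz
              apply hBa
              intro hz'
              exact h0 (hp1 u u₀ z hz hz')
            refine ⟨?_, fun h => ?_⟩
            · rw [hal2]
              exact (hVal u).1
            · have hle : u.length ≤ n := by
                by_contra h5
                exact hu ((hus u).2 ⟨by omega, hlen, h⟩)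
              have hid2 : hid u (Φ (put u₀ a B)) = hid u (Φ B) := by
                apply hHL
                intro z hz
                apply hL
                intro z' hz'
                apply hBa
                intro h6
                have h7 : z'.length = blen u₀ := h6.2
                have := hblen u₀
                omega
              rw [hal2, hid2]
              exact (hVal u).2 h
        · intro B' hB' hcond
          have h1 := claim B' (by
            intro z hz
            rw [hB' z (fun u hu => hz u (List.mem_cons_of_mem _ hu))]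
            exact hBa z (hz u₀ List.mem_cons_self)) hcond
          have h2 : al u₀ B' = al u₀ (put u₀ a B) := by
            apply hp5
            intro z hz
            apply hB'
            intro u hu hz'
            exact hu₀us ((hp1 u u₀ z hz' hz) ▸ hu)
          rw [h2, hal] at h1
          cases b with
          | true =>
            have h3 : Q B' = true := h1.2 (by simp)
            simp [h3]
          | false =>
            have h3 : ¬ (Q B' = true) := by
              intro h4
              have := h1.1 h4
              norm_num at this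
            simp [h3]
  have k1 := key true
  have k2 := key false
  have hcard : (0 : ℝ) < (Fintype.card (FT (u₀ :: us)) : ℝ) := by
    exact_mod_cast Fintype.card_pos
  have hadd : (∑ ω : FT (u₀ :: us), if (Q (fil (u₀ :: us) ω B) ^^ !true)
        then (1 : ℝ) else 0) / (Fintype.card (FT (u₀ :: us)) : ℝ) +
      (∑ ω : FT (u₀ :: us), if (Q (fil (u₀ :: us) ω B) ^^ !false)
        then (1 : ℝ) else 0) / (Fintype.card (FT (u₀ :: us)) : ℝ) = 1 := by
    rw [← add_div, ← Finset.sum_add_distrib]
    have : ∀ ω : FT (u₀ :: us),
        ((if (Q (fil (u₀ :: us) ω B) ^^ !true)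
        then (1 : ℝ) else 0) +
        (if (Q (fil (u₀ :: us) ω B) ^^ !false)
        then (1 : ℝ) else 0)) = 1 := by
      intro ω
      by_cases h : Q (fil (u₀ :: us) ω B) = true
      · simp [h]
      · simp [h]
    rw [Finset.sum_congr rfl (fun ω _ => this ω), Finset.sum_const, Finset.card_univ]
    simp only [nsmul_eq_mul, mul_one]
    exact div_self hcard.ne'
  have hS : ((u₀ :: us).map (fun u => (1 / 2 : ℝ) ^ mu u)).sum ≤ 1 / 4 + 1 / 8 := by
    rw [List.map_cons, List.sum_cons]
    have h1 : (1 / 2 : ℝ) ^ mu u₀ ≤ (1 / 2) ^ 3 := by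
      apply pow_le_pow_of_le_one (by norm_num) (by norm_num)
      unfold mu
      omega
    have h2 : (1 / 2 : ℝ) ^ n ≤ (1 / 2) ^ 2 := by
      apply pow_le_pow_of_le_one (by norm_num) (by norm_num)
      omega
    norm_num at h1 h2 ⊢
    norm_num at hsum
    linarith
  linarith

end Pool.Agent.H516R2.EQP4
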