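import Pool.Agent.H516R2.EQP3.AllZ
import Pool.Agent.H516R2.EQP4.HA
import Pool.Agent.H516R2.EQP4.QUg
import Pool.Agent.H516R2.EQP4.SPg
import Pool.Agent.H516R2.EQP4.NNg
import Pool.Agent.H516R2.EQP4.GYg
import Pool.Agent.H516R2.EQP4.NYg
import Pool.Agent.H516R2.EQP4.LH
import Pool.Agent.H516R2.EQP4.QDg
import Pool.Agent.H516R2.EQP4.YW
import Pool.Agent.H516R2.EQP4.YM
import Pool.Agent.H516R2.EQP4.YB
import Pool.Agent.H516R2.EQP4.YZg
import Pool.Agent.H516R2.EQP4.YG
import Pool.Agent.H516R2.EQP4.YH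

/-! The assembly of the second gauge theorem. -/

namespace Pool.Agent.H516R2.EQP4

open Pool.Agent.H516R2.EQP Pool.Agent.H516R2.EQP2 Pool.Agent.H516R2.EQP3

theorem all_HA : St_HA := HA all_PU

theorem all_QUg : St_QUg := QUg (task_QF QL QG)

theorem all_YW : St_YW :=
  YW all_PU all_HY all_CL BL all_VL ML LF LH (QDg all_HA RT) GYg NYg LL all_HA

theorem all_YB : St_YB := YB (YM all_YW LF) all_CL all_HA

theorem all_YG : St_YG :=
  YG all_PU all_QUg PS all_CL DG all_YB (YZg all_PU all_HY all_CL BL all_VL GYg LL all_HA)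
    LL DQ all_HA

theorem all_YH : St_YH := YH SPg NNg all_YG

end Pool.Agent.H516R2.EQP4
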