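import Pool.Agent.H516R2.EQP4.Props
import Pool.Agent.H620R2.GaugeQ.Q7
import Pool.Agent.H620R2.Gauge2.Trans
import Pool.Agent.H620R2.Gauge2.V7

/-!
# The second gauge theorem
-/

set_option autoImplicit false

namespace Pool.Agent.H516R2.EQP4

open Pool.Agent.NPC Pool.Agent.H620R2.Gauge Finset H568R2 Pool.Agent.H676 Pool.Agent.H516R2.EQP
  Pool.Agent.H516R2.EQP2 Pool.Agent.H516R2.EQP3 Pool.Agent.H591R3.PHG

theorem YH_isBQP {k : ℕ} {A : Oracle} {L : Set (List Bool)} (h : IsEQP k A L) : IsBQP A L := by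
  obtain ⟨C, hC, hx⟩ := h
  refine ⟨C, hC, fun x => ⟨fun h1 => ?_, fun h1 => ?_⟩⟩
  · rw [(hx x).2.1 h1]
    norm_num
  · rw [(hx x).2.2 h1]
    norm_num

theorem YH (hsp : St_SPg) (hnn : St_NNg) (hyg : St_YG) : St_YH := by
  intro f
  constructor
  · intro hnull ε hε
    by_contra hcon
    rw [Filter.not_frequently] at hcon
    obtain ⟨K, hK⟩ := hsp ε hε
    obtain ⟨Bad, hBad, hA⟩ := hyg K
    have hR : ∀ e n, (n + e + 1) ^ K ≤
        ((fun e => (Polynomial.X + Polynomial.C (e + 1)) ^ K : ℕ → Polynomial ℕ) e).eval n := by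
      intro e n
      simp only [Polynomial.eval_pow, Polynomial.eval_add, Polynomial.eval_X, Polynomial.eval_C]
      exact le_of_eq (by rw [add_assoc])
    refine hnn f (Tcd K (fun e => (Polynomial.X + Polynomial.C (e + 1)) ^ K)) _ Bad ?_ hBad ?_ hnull
    · filter_upwards [hK K le_rfl _ hR, hcon] with N h1 h2
      exact h1.trans (not_le.1 h2).le
    · intro R hRB
      obtain ⟨A, h1, h2, h3, h4⟩ := hA R hRB
      exact ⟨A, ⟨h2, h3, h4⟩, fun y hy => h1 y fun v hv => hy (Or.inr ⟨v, hv⟩)⟩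
  · intro hf
    refine nullQ hf _ ?_
    rintro A ⟨h1, -, -⟩
    exact (YH_isBQP (h1 _ (hitLang_np A).isPSPACE)).withAdvice

end Pool.Agent.H516R2.EQP4
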